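import Pool.Agent.H503R3.FR.Defs

/-! Tasks for the F-rational counterexample. Char 2 throughout. -/

set_option autoImplicit false

universe u v

open IsLocalRing MvPolynomial

namespace H503R3.FR

/-- `E : k[X 0, X 1, X 2] → k[X 0, X 1, X 2]`, `X i ↦ (X i) ^ 2` (constants are fixed). -/
noncomputable abbrev E (k : Type u) [Field k] : D k →ₐ[k] D k := MvPolynomial.expand 2

/-- Even total degree in `X 1, X 2`. -/
def IsEv {k : Type u} [Field k] (f : D k) : Prop := ∀ m ∈ f.support, Even (m 1 + m 2)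

/-- Odd total degree in `X 1, X 2`. -/
def IsOd {k : Type u} [Field k] (f : D k) : Prop := ∀ m ∈ f.support, Odd (m 1 + m 2)

/-- The even and odd parts. -/
structure ParityData (k : Type u) [Field k] where
  p0 : D k →+ D k
  p1 : D k →+ D k
  add : ∀ f, p0 f + p1 f = f
  ev : ∀ f, IsEv (p0 f)
  od : ∀ f, IsOd (p1 f)
  p0_ev : ∀ f, IsEv f → p0 f = f
  p1_ev : ∀ f, IsEv f → p1 f = 0
  p0_od : ∀ f, IsOd f → p0 f = 0
  p1_od : ∀ f, IsOd f → p1 f = f
  ev_mul0 : ∀ a f, IsEv a → p0 (a * f) = a * p0 f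
  ev_mul1 : ∀ a f, IsEv a → p1 (a * f) = a * p1 f
  od_mul0 : ∀ a f, IsOd a → p0 (a * f) = a * p1 f
  od_mul1 : ∀ a f, IsOd a → p1 (a * f) = a * p0 f

/-- Coordinates with respect to the basis of `D` over `E(D)`: `c0 = ` coordinate of `1`,
`c1` of `X 1 * X 2`, `c2` of `X 0 * X 1 * X 2`. -/
structure CoordData (k : Type u) [Field k] where
  c0 : D k →+ D k
  c1 : D k →+ D k
  c2 : D k →+ D k
  mul0 : ∀ a d, c0 (E k a * d) = a * c0 d
  mul1 : ∀ a d, c1 (E k a * d) = a * c1 d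
  mul2 : ∀ a d, c2 (E k a * d) = a * c2 d
  one0 : c0 1 = 1
  one1 : c1 1 = 0
  one2 : c2 1 = 0
  w0 : c0 (w k) = 0
  w1 : c1 (w k) = X 1
  w2 : c2 (w k) = X 2

/-- Task Parity. -/
def TaskParity : Prop := ∀ (k : Type) [Field k], Nonempty (ParityData k)

/-- Task Coord. -/
def TaskCoord : Prop := ∀ (k : Type) [Field k] [CharP k 2], Nonempty (CoordData k)

/-- Task Mem: description of `R`. -/
def TaskMem : Prop := ∀ (k : Type) [Field k] [CharP k 2] (z : D k),
  z ∈ R k ↔ ∃ a b : D k, IsEv a ∧ IsOd b ∧ z = E k a + E k b * w k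

/-- Task Root: squares of elements of `D` are in `E(D)`, with even root for elements of `R`
(`k` perfect). -/
def TaskRoot : Prop := ∀ (k : Type) [Field k] [IsAlgClosed k] [CharP k 2],
  (∀ z : D k, ∃ y : D k, z ^ 2 = E k y) ∧ (∀ z ∈ R k, ∃ y : D k, IsEv y ∧ z ^ 2 = E k y)

/-- Task SFR: `D` is strongly F-regular. -/
def TaskSFR : Prop := ∀ (k : Type) [Field k] [IsAlgClosed k] [CharP k 2] (c : D k), c ≠ 0 →
  ∃ e₀ : ℕ, ∀ e, e₀ ≤ e → ∃ φ : D k →+ D k, (∀ a d, φ (a ^ 2 ^ e * d) = a * φ d) ∧ φ c = 1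

/-- Task TC: tight closure in a localisation of `R` is contained in the extension to `D`. -/
def TaskTC : Prop := TaskSFR → ∀ (k : Type) [Field k] [IsAlgClosed k] [CharP k 2]
  (P : Ideal (R k)) [P.IsPrime] (n : ℕ) (x : Fin n → R k) (z : R k),
    MemTightClosure 2 (Ideal.span (Set.range fun l => algebraMap (R k)
      (Localization.AtPrime P) (x l))) (algebraMap (R k) (Localization.AtPrime P) z) →
    ∃ u : R k, u ∉ P ∧ (u : D k) * z ∈ Ideal.span (Set.range fun l => (x l : D k))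

/-- Task Psi: `R`-linear maps `D → R` with `1 ↦ (X 1) ^ 4` and `1 ↦ (X 2) ^ 4`. -/
def TaskPsi : Prop := TaskParity → TaskCoord → TaskMem → ∀ (k : Type) [Field k] [CharP k 2],
  (∃ ψ : D k →ₗ[R k] R k, ψ 1 = r k 1) ∧ (∃ ψ : D k →ₗ[R k] R k, ψ 1 = r k 3)

/-- Scaling: representatives. -/
def TaskScale : Prop := ∀ (A : Type) [CommRing A] (P : Ideal A) [P.IsPrime] (n : ℕ)
  (x : Fin n → Localization.AtPrime P) (z : Localization.AtPrime P),
    ∃ (x' : Fin n → A) (z' : A) (v : Localization.AtPrime P), IsUnit v ∧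
      algebraMap A _ z' = v * z ∧
      Ideal.span (Set.range fun l => algebraMap A (Localization.AtPrime P) (x' l)) =
        Ideal.span (Set.range x)

/-- Vanishing of the first Koszul homology (for modules of characteristic 2). -/
def H1van {A : Type u} (M : Type v) [CommRing A] [AddCommGroup M] [Module A M] {n : ℕ}
    (x : Fin n → A) : Prop :=
  ∀ c : Fin n → M, ∑ l, x l • c l = 0 →
    ∃ t : Fin n → Fin n → M, (∀ l, t l l = 0) ∧ (∀ l m, t l m = t m l) ∧
      ∀ l, c l = ∑ m, x m • t l m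

/-- Task KV: a sequence whose ideal contains, up to radical, a regular sequence that is at least
as long has no first Koszul homology. -/
def TaskKV : Prop := ∀ (A M : Type) [CommRing A] [AddCommGroup M] [Module A M],
  (∀ m : M, m + m = 0) → ∀ (n : ℕ) (x : Fin n → A) (zs : List A),
    RingTheory.Sequence.IsWeaklyRegular M zs →
    (∀ z ∈ zs, z ∈ (Ideal.span (Set.range x)).radical) → n ≤ zs.length → H1van M x

/-- Task Colon. -/
def TaskColon : Prop := ∀ (A : Type) [CommRing A], (∀ m : A, m + m = 0) →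
  ∀ (n : ℕ) (x : Fin n → A),
    (∀ e : Fin n → ℕ, (∀ l, 1 ≤ e l) → H1van A (fun l => x l ^ e l)) →
    ∀ z : A, z * ∏ l, x l ∈ Ideal.span (Set.range fun l => x l ^ 2) →
      z ∈ Ideal.span (Set.range x)

/-- The even elements outside a prime of `R`. -/
def MP {k : Type} [Field k] (P : Ideal (R k)) : Set (D k) :=
  {v | IsEv v ∧ ∃ h : E k v ∈ R k, (⟨E k v, h⟩ : R k) ∉ P}

/-- Local vanishing of the first Koszul homology of `y` on `D`. -/
def H1loc {k : Type} [Field k] (P : Ideal (R k)) {n : ℕ} (y : Fin n → D k) : Prop :=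
  ∀ c : Fin n → D k, ∑ l, y l * c l = 0 →
    ∃ v ∈ MP P, ∃ t : Fin n → Fin n → D k, (∀ l, t l l = 0) ∧ (∀ l m, t l m = t m l) ∧
      ∀ l, v * c l = ∑ m, y m * t l m

/-- Task Zs: the vertex primes. -/
def TaskZs : Prop := TaskMem → ∀ (k : Type) [Field k] [IsAlgClosed k] [CharP k 2]
  (P : Ideal (R k)) [P.IsPrime], r k 1 ∈ P → r k 3 ∈ P →
    ∃ zs : List (D k), (∀ z ∈ zs, IsEv z) ∧ RingTheory.Sequence.IsWeaklyRegular (D k) zs ∧
      ∃ zr : List (R k), zr.map (fun z => (z : D k)) = zs.map (E k) ∧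
        RingTheory.Sequence.IsWeaklyRegular (R k) zr ∧ (∀ z ∈ zr, z ∈ P) ∧
        ringKrullDim (Localization.AtPrime P) ≤ (zs.length : WithBot ℕ∞)

/-- The polynomial `f(X 0)`. -/
noncomputable def polyX0 {k : Type} [Field k] (f : Polynomial k) : D k :=
  Polynomial.aeval (X 0 : D k) f

/-- Task ZsReg: the regular sequences. -/
def TaskZsReg : Prop := TaskMem → ∀ (k : Type) [Field k] [CharP k 2],
  RingTheory.Sequence.IsWeaklyRegular (D k) [(X 1 ^ 2 : D k), X 2 ^ 2] ∧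
  RingTheory.Sequence.IsWeaklyRegular (R k) [r k 1, r k 3] ∧
  ∀ f : Polynomial k, f ≠ 0 → IsEv (polyX0 f) ∧
    RingTheory.Sequence.IsWeaklyRegular (D k) [(X 1 ^ 2 : D k), X 2 ^ 2, polyX0 f] ∧
    ∃ h : E k (polyX0 f) ∈ R k,
      RingTheory.Sequence.IsWeaklyRegular (R k) [r k 1, r k 3, ⟨E k (polyX0 f), h⟩]

/-- Task ZsPrime: the vertex primes. -/
def TaskZsPrime : Prop := TaskMem → ∀ (k : Type) [Field k] [CharP k 2]
  (P : Ideal (R k)) [P.IsPrime], r k 1 ∈ P → r k 3 ∈ P →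
    P ≤ (Ideal.span {r k 1, r k 3}).radical ∨
    ∃ f : Polynomial k, f ≠ 0 ∧ ∃ h : E k (polyX0 f) ∈ R k, (⟨E k (polyX0 f), h⟩ : R k) ∈ P ∧
      P ≤ (Ideal.span {r k 1, r k 3, ⟨E k (polyX0 f), h⟩}).radical

/-- Task ZsDim. -/
def TaskZsDim : Prop := TaskZsReg → TaskZsPrime → TaskZs

/-- Task HT: Koszul vanishing on `D` near a vertex prime. -/
def TaskHT : Prop := TaskKV → TaskMem → TaskRoot →
  ∀ (k : Type) [Field k] [IsAlgClosed k] [CharP k 2]
  (P : Ideal (R k)) [P.IsPrime] (zs : List (D k)) (zr : List (R k)),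
    (∀ z ∈ zs, IsEv z) → RingTheory.Sequence.IsWeaklyRegular (D k) zs →
    zr.map (fun z => (z : D k)) = zs.map (E k) → (∀ z ∈ zr, z ∈ P) →
    ∀ (n : ℕ) (x : Fin n → R k), n ≤ zs.length →
      (∀ z ∈ P, ∃ u ∉ P, ∃ N : ℕ, u * z ^ N ∈ Ideal.span (Set.range x)) →
      ∀ y : Fin n → D k, (∀ l, IsEv (y l)) → (∀ l, (x l : D k) ^ 2 = E k (y l)) → H1loc P y

/-- Task HR: Koszul vanishing for `R` localised at a vertex prime. -/
def TaskHR : Prop := TaskKV → ∀ (k : Type) [Field k] [CharP k 2]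
  (P : Ideal (R k)) [P.IsPrime] (zr : List (R k)),
    RingTheory.Sequence.IsWeaklyRegular (R k) zr → (∀ z ∈ zr, z ∈ P) →
    ∀ (n : ℕ) (x : Fin n → Localization.AtPrime P), n ≤ zr.length →
      (Ideal.span (Set.range x)).radical = maximalIdeal (Localization.AtPrime P) →
      ∀ e : Fin n → ℕ, (∀ l, 1 ≤ e l) → H1van (Localization.AtPrime P) (fun l => x l ^ e l)

/-- Task Vertex: the heart of the argument at the vertex. -/
def TaskVertex : Prop := TaskParity → ∀ (k : Type) [Field k] [CharP k 2]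
  (P : Ideal (R k)) [P.IsPrime] (n : ℕ) (y : Fin n → D k), (∀ l, IsEv (y l)) → H1loc P y →
    ∀ b : D k, IsOd b → ∀ v ∈ MP P, v * (X 1 * b) ∈ Ideal.span (Set.range y) →
      v * (X 2 * b) ∈ Ideal.span (Set.range y) →
      ∃ v' ∈ MP P, v' * b ∈ Ideal.span (Set.range y)

/-- Task V2: from `D` to `R` at the vertex. -/
def TaskV2 : Prop := TaskVertex → TaskParity → TaskCoord → TaskMem → TaskRoot →
  ∀ (k : Type) [Field k] [IsAlgClosed k] [CharP k 2]
  (P : Ideal (R k)) [P.IsPrime] (n : ℕ) (x : Fin n → R k) (y : Fin n → D k),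
    (∀ l, IsEv (y l)) → (∀ l, (x l : D k) ^ 2 = E k (y l)) → H1loc P y →
    ∀ (z u : R k), u ∉ P → (u : D k) * z ∈ Ideal.span (Set.range fun l => (x l : D k) ^ 2) →
      ∃ u' : R k, u' ∉ P ∧ u' * z ∈ Ideal.span (Set.range fun l => x l ^ 2)

/-- Task G1: the section by a hyperplane is not F-rational: explicit identity. -/
def TaskG1 : Prop := ∀ (k : Type) [Field k] [CharP k 2] (a : Fin 7 → k) (q : k), a 1 ≠ 0 →
  q ^ 2 * a 1 = a 0 →
    (r k 4 + algebraMap k (R k) q * r k 5) ^ 2 ∈ Ideal.span {r k 1 ^ 2, r k 3 ^ 2, hyp k a}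

/-- Evaluation at the point `(q, 0, 0)`. -/
noncomputable def evq (k : Type) [Field k] (q : k) : R k →ₐ[k] k :=
  (MvPolynomial.aeval ![q, 0, 0]).comp (R k).val

/-- Task G2. -/
def TaskG2 : Prop := TaskMem → ∀ (k : Type) [Field k] [CharP k 2] (a : Fin 7 → k) (q : k),
  a 1 ≠ 0 → q ^ 2 * a 1 = a 0 → ∀ u : R k,
    u * (r k 4 + algebraMap k (R k) q * r k 5) ∈ Ideal.span {r k 1, r k 3, hyp k a} →
    evq k q u = 0

/-- Task G3: elements vanishing at the point are nilpotent modulo the parameters. -/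
def TaskG3 : Prop := ∀ (k : Type) [Field k] [CharP k 2] (a : Fin 7 → k) (q : k),
  a 1 ≠ 0 → q ^ 2 * a 1 = a 0 → evq k q (hyp k a) = 0 ∧ ∀ u : R k, evq k q u = 0 →
    ∃ N : ℕ, u ^ N ∈ Ideal.span {r k 1, r k 3, hyp k a}

/-- Task G4: the point has height at least 3. -/
def TaskG4 : Prop := ∀ (k : Type) [Field k] [CharP k 2] (q : k),
  3 ≤ (RingHom.ker (evq k q)).height

/-- Task G: no hyperplane section with `a 1 ≠ 0` is F-rational. -/
def TaskG : Prop := TaskG1 → TaskG2 → TaskG3 → TaskG4 →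
  ∀ (k : Type) [Field k] [IsAlgClosed k] [CharP k 2] (a : Fin 7 → k), a 1 ≠ 0 →
    ¬ FRational 2 (R k ⧸ Ideal.span {hyp k a})

/-- Task Case1: away from the vertex. -/
def TaskCase1 : Prop := TaskPsi → TaskTC → TaskScale → TaskSFR → TaskParity → TaskCoord →
  TaskMem → ∀ (k : Type) [Field k] [IsAlgClosed k] [CharP k 2] (P : Ideal (R k)) [P.IsPrime],
    (r k 1 ∉ P ∨ r k 3 ∉ P) → FRationalLocal 2 (Localization.AtPrime P)

/-- Task Case2: at the vertex. -/
def TaskCase2 : Prop := TaskTC → TaskScale → TaskSFR → TaskParity → TaskCoord →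
  TaskMem → TaskRoot → TaskKV → TaskColon → TaskZs → TaskHT → TaskHR → TaskVertex → TaskV2 →
  ∀ (k : Type) [Field k] [IsAlgClosed k] [CharP k 2] (P : Ideal (R k)) [P.IsPrime],
    r k 1 ∈ P → r k 3 ∈ P → FRationalLocal 2 (Localization.AtPrime P)

end H503R3.FR
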