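import Mathlib

/-! Definitions: F-rational rings, and the three-dimensional ring of the counterexample. -/

set_option autoImplicit false

universe u

open IsLocalRing MvPolynomial

namespace H503R3.FR

/-- The ideal `I^[N]` generated by the `N`-th powers of the elements of `I`. -/
def frobPower {B : Type u} [CommRing B] (I : Ideal B) (N : ℕ) : Ideal B :=
  Ideal.span ((fun a => a ^ N) '' (I : Set B))

/-- `z` lies in the tight closure of `I`: there is `c` outside all minimal primes with
`c * z ^ q ∈ I^[q]` for all large `q = p ^ e`. -/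
def MemTightClosure (p : ℕ) {B : Type u} [CommRing B] (I : Ideal B) (z : B) : Prop :=
  ∃ c : B, (∀ Q ∈ minimalPrimes B, c ∉ Q) ∧
    ∃ e₀ : ℕ, ∀ e : ℕ, e₀ ≤ e → c * z ^ (p ^ e) ∈ frobPower I (p ^ e)

/-- `x` is a (full) system of parameters of the local ring `B`: it has `dim B` elements and
generates an ideal with radical the maximal ideal. -/
def IsSystemOfParameters {B : Type u} [CommRing B] [IsLocalRing B] {n : ℕ} (x : Fin n → B) :
    Prop :=
  (n : WithBot ℕ∞) = ringKrullDim B ∧ (Ideal.span (Set.range x)).radical = maximalIdeal B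

/-- The local ring `B` is F-rational: every ideal generated by a full system of parameters
equals its tight closure. -/
def FRationalLocal (p : ℕ) (B : Type u) [CommRing B] [IsLocalRing B] : Prop :=
  ∀ (n : ℕ) (x : Fin n → B), IsSystemOfParameters x →
    ∀ z : B, MemTightClosure p (Ideal.span (Set.range x)) z → z ∈ Ideal.span (Set.range x)

/-- `Spec A` is F-rational: all local rings of `A` are F-rational. -/
def FRational (p : ℕ) (A : Type u) [CommRing A] : Prop :=
  ∀ (P : Ideal A) [P.IsPrime], FRationalLocal p (Localization.AtPrime P)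

/-- The polynomial ring `k[X 0, X 1, X 2]`. -/
abbrev D (k : Type u) [Field k] : Type u := MvPolynomial (Fin 3) k

/-- `w = (X 1) ^ 3 * X 2 + X 0 * X 1 * (X 2) ^ 3`. -/
noncomputable def w (k : Type u) [Field k] : D k := X 1 ^ 3 * X 2 + X 0 * X 1 * X 2 ^ 3

/-- The six generators. -/
noncomputable def gen (k : Type u) [Field k] : Fin 6 → D k :=
  ![X 0 ^ 2, X 1 ^ 4, X 1 ^ 2 * X 2 ^ 2, X 2 ^ 4, X 1 ^ 2 * w k, X 2 ^ 2 * w k]

/-- The ring of the example: the subalgebra of `k[X 0, X 1, X 2]` generated by the six elements
`gen k i`. -/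
noncomputable abbrev R (k : Type u) [Field k] : Subalgebra k (D k) :=
  Algebra.adjoin k (Set.range (gen k))

/-- The generators as elements of `R k`. -/
noncomputable def r (k : Type u) [Field k] (i : Fin 6) : R k :=
  ⟨gen k i, Algebra.subset_adjoin ⟨i, rfl⟩⟩

/-- The affine linear function `a 0 + a 1 * r 0 + ... + a 6 * r 5`. -/
noncomputable def hyp (k : Type u) [Field k] (a : Fin 7 → k) : R k :=
  algebraMap k (R k) (a 0) + ∑ i : Fin 6, algebraMap k (R k) (a i.succ) * r k i

end H503R3.FR
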