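import Pool.Agent.H503R3.FR.Stmts

set_option autoImplicit false

open IsLocalRing MvPolynomial

namespace H503R3.FR

theorem frational (hTC : TaskTC) (hScale : TaskScale) (hSFR : TaskSFR) (hPar : TaskParity)
    (hCo : TaskCoord) (hMem : TaskMem) (hRoot : TaskRoot) (hPsi : TaskPsi) (hKV : TaskKV)
    (hCol : TaskColon) (hZR : TaskZsReg) (hZP : TaskZsPrime) (hZD : TaskZsDim) (hHT : TaskHT)
    (hHR : TaskHR) (hV : TaskVertex) (hV2 : TaskV2) (hC1 : TaskCase1) (hC2 : TaskCase2)
    (k : Type) [Field k] [IsAlgClosed k] [CharP k 2] : FRational 2 (R k) := by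
  intro P _
  by_cases h1 : r k 1 ∈ P
  · by_cases h3 : r k 3 ∈ P
    · exact hC2 hTC hScale hSFR hPar hCo hMem hRoot hKV hCol (hZD hZR hZP) hHT hHR hV hV2 k P h1 h3
    · exact hC1 hPsi hTC hScale hSFR hPar hCo hMem k P (Or.inr h3)
  · exact hC1 hPsi hTC hScale hSFR hPar hCo hMem k P (Or.inl h1)

theorem gens (k : Type) [Field k] : Algebra.adjoin k (Set.range (r k)) = ⊤ := by
  have h : (Algebra.adjoin k (Set.range (r k))).map (R k).val = R k := by
    rw [AlgHom.map_adjoin, ← Set.range_comp]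
    rfl
  refine (Subalgebra.map_injective (f := (R k).val) Subtype.val_injective) ?_
  rw [h, Algebra.map_top, Subalgebra.range_val]

end H503R3.FR
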