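import Pool.Agent.H503R3.FR.Stmts

set_option autoImplicit false
set_option linter.unusedSectionVars false

/-!
# Vanishing of the first Koszul homology (characteristic two)
-/

namespace H503R3.FR.KV557

open Finset
open scoped Pointwise

section

variable {A : Type} [CommRing A] {n : ℕ}

section

variable {M : Type} [AddCommGroup M] [Module A M]

/-- the Koszul differential -/
def dd (x : Fin n → A) (t : Finset (Fin n) → M) (S : Finset (Fin n)) : M :=
  ∑ m ∈ Sᶜ, x m • t (insert m S)

/-- supported on the sets of size `i` -/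
def Supp (i : ℕ) (t : Finset (Fin n) → M) : Prop := ∀ S, S.card ≠ i → t S = 0

theorem Supp.add {i : ℕ} {t u : Finset (Fin n) → M} (h : Supp i t) (h' : Supp i u) :
    Supp i (t + u) := fun S hS => by rw [Pi.add_apply, h S hS, h' S hS, add_zero]

theorem Supp.smul {i : ℕ} {t : Finset (Fin n) → M} (a : A) (h : Supp i t) :
    Supp i (a • t) := fun S hS => by rw [Pi.smul_apply, h S hS, smul_zero]

theorem dd_add (x : Fin n → A) (t u : Finset (Fin n) → M) : dd x (t + u) = dd x t + dd x u := by
  funext S
  simp only [dd, Pi.add_apply, smul_add, Finset.sum_add_distrib]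

theorem dd_smul (x : Fin n → A) (a : A) (t : Finset (Fin n) → M) :
    dd x (a • t) = a • dd x t := by
  funext S
  simp only [dd, Pi.smul_apply, Finset.smul_sum]
  apply Finset.sum_congr rfl
  intro m _
  rw [smul_comm]

theorem dd_supp (x : Fin n → A) {i : ℕ} {u : Finset (Fin n) → M} (h : Supp (i + 1) u) :
    Supp i (dd x u) := by
  intro S hS
  unfold dd
  apply Finset.sum_eq_zero
  intro m hm
  rw [Finset.mem_compl] at hm
  rw [h _ (by rw [Finset.card_insert_of_notMem hm]; omega), smul_zero]

theorem dd_dd (h2 : ∀ m : M, m + m = 0) (x : Fin n → A) (t : Finset (Fin n) → M) :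
    dd x (dd x t) = 0 := by
  funext S
  simp only [dd, Pi.zero_apply, Finset.smul_sum]
  rw [Finset.sum_sigma']
  refine Finset.sum_involution (fun p _ => (⟨p.2, p.1⟩ : (_ : Fin n) × Fin n)) ?_ ?_ ?_ ?_
  · rintro ⟨a, b⟩ h
    simp only
    rw [Finset.insert_comm b a S, smul_comm (x b) (x a)]
    exact h2 _
  · rintro ⟨a, b⟩ h _ he
    simp only [Finset.mem_sigma, Finset.mem_compl, Finset.mem_insert, not_or] at h
    have : b = a := congrArg Sigma.fst he
    exact h.2.1 this
  · rintro ⟨a, b⟩ h
    simp only [Finset.mem_sigma, Finset.mem_compl, Finset.mem_insert, not_or] at h ⊢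
    exact ⟨h.2.2, fun e => h.2.1 e.symm, h.1⟩
  · rintro ⟨a, b⟩ h
    rfl

/-- the homotopy -/
def ee (l : Fin n) (t : Finset (Fin n) → M) (S : Finset (Fin n)) : M :=
  if l ∈ S then t (S.erase l) else 0

theorem ee_supp (l : Fin n) {i : ℕ} {t : Finset (Fin n) → M} (h : Supp i t) :
    Supp (i + 1) (ee l t) := by
  intro S hS
  unfold ee
  split_ifs with hl
  · apply h
    rw [Finset.card_erase_of_mem hl]
    have : 0 < S.card := Finset.card_pos.2 ⟨l, hl⟩
    omega
  · rfl

theorem homotopy (h2 : ∀ m : M, m + m = 0) (x : Fin n → A) (l : Fin n)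
    (t : Finset (Fin n) → M) : dd x (ee l t) + ee l (dd x t) = x l • t := by
  funext S
  simp only [Pi.add_apply, Pi.smul_apply]
  by_cases hl : l ∈ S
  · have e1 : ee l (dd x t) S = dd x t (S.erase l) := by unfold ee; rw [if_pos hl]
    have e2 : dd x (ee l t) S = ∑ m ∈ Sᶜ, x m • t (insert m (S.erase l)) := by
      unfold dd
      apply Finset.sum_congr rfl
      intro m hm
      rw [Finset.mem_compl] at hm
      have hml : m ≠ l := fun e => hm (e ▸ hl)
      unfold ee
      rw [if_pos (Finset.mem_insert_of_mem hl), Finset.erase_insert_of_ne hml]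
    have e3 : (S.erase l)ᶜ = insert l Sᶜ := by
      ext m
      simp only [Finset.mem_compl, Finset.mem_erase, Finset.mem_insert]
      tauto
    have e4 : dd x t (S.erase l) = x l • t S + ∑ m ∈ Sᶜ, x m • t (insert m (S.erase l)) := by
      unfold dd
      rw [e3, Finset.sum_insert (by simp [hl]), Finset.insert_erase hl]
    rw [e1, e2, e4, add_left_comm, h2, add_zero]
  · have e1 : ee l (dd x t) S = 0 := by unfold ee; rw [if_neg hl]
    rw [e1, add_zero]
    unfold dd
    rw [Finset.sum_eq_single l]
    · unfold ee
      rw [if_pos (Finset.mem_insert_self _ _), Finset.erase_insert hl]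
    · intro m hm hml
      unfold ee
      rw [if_neg, smul_zero]
      simp only [Finset.mem_insert, not_or]
      exact ⟨fun e => hml e.symm, hl⟩
    · intro h
      exact absurd (Finset.mem_compl.2 hl) h

theorem smul_boundary (h2 : ∀ m : M, m + m = 0) (x : Fin n → A) {i : ℕ}
    {t : Finset (Fin n) → M} (ht : Supp i t) (hdt : dd x t = 0) (a : A)
    (ha : a ∈ Ideal.span (Set.range x)) : ∃ u, Supp (i + 1) u ∧ dd x u = a • t := by
  induction ha using Submodule.span_induction with
  | mem y hy =>
    obtain ⟨l, rfl⟩ := hy
    refine ⟨ee l t, ee_supp l ht, ?_⟩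
    have := homotopy h2 x l t
    rw [hdt] at this
    have e : ee l (0 : Finset (Fin n) → M) = 0 := by funext S; simp [ee]
    rw [e, add_zero] at this
    exact this
  | zero =>
    refine ⟨0, fun _ _ => rfl, ?_⟩
    rw [zero_smul]
    funext S
    simp [dd]
  | add y z _ _ hy hz =>
    obtain ⟨u, hu, hu'⟩ := hy
    obtain ⟨v, hv, hv'⟩ := hz
    exact ⟨u + v, hu.add hv, by rw [dd_add, hu', hv', add_smul]⟩
  | smul b y _ hy =>
    obtain ⟨u, hu, hu'⟩ := hy
    exact ⟨b • u, hu.smul b, by rw [dd_smul, hu', smul_eq_mul, mul_smul]⟩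

end

/-- vanishing in degree `i` -/
def Van (M : Type) [AddCommGroup M] [Module A M] (x : Fin n → A) (i : ℕ) : Prop :=
  ∀ t : Finset (Fin n) → M, Supp i t → dd x t = 0 → ∃ u, Supp (i + 1) u ∧ dd x u = t

theorem van_step (M : Type) [AddCommGroup M] [Module A M] (h2 : ∀ m : M, m + m = 0)
    (x : Fin n → A) (z : A) (hz : z ∈ (Ideal.span (Set.range x)).radical)
    (hreg : IsSMulRegular M z) (i : ℕ) (hV : Van (QuotSMulTop z M) x (i + 1)) : Van M x i := by
  intro t ht hdt
  obtain ⟨N, hN⟩ := hz
  obtain ⟨u, hu, hu'⟩ := smul_boundary h2 x ht hdt _ hN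
  clear hN
  induction N generalizing u with
  | zero =>
    refine ⟨u, hu, ?_⟩
    rw [hu', pow_zero, one_smul]
  | succ N ih =>
    -- the class of `u` modulo `z`
    let π : M →ₗ[A] QuotSMulTop z M := Submodule.mkQ _
    have hπ : Function.Surjective π := Submodule.mkQ_surjective _
    have hker : ∀ m : M, π m = 0 → ∃ w, m = z • w := by
      intro m hm
      have h1 : m ∈ (z • (⊤ : Submodule A M)) := by
        rw [← Submodule.Quotient.mk_eq_zero]
        exact hm
      rw [Submodule.mem_smul_pointwise_iff_exists] at h1
      obtain ⟨w, -, hw⟩ := h1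
      exact ⟨w, hw.symm⟩
    have hzero : ∀ m : M, π (z • m) = 0 := by
      intro m
      have h1 : z • m ∈ (z • (⊤ : Submodule A M)) :=
        Submodule.smul_mem_pointwise_smul _ _ _ Submodule.mem_top
      exact (Submodule.Quotient.mk_eq_zero _).2 h1
    have hdπ : ∀ v : Finset (Fin n) → M, dd x (fun S => π (v S)) = fun S => π (dd x v S) := by
      intro v
      funext S
      simp only [dd, map_sum, map_smul]
    have h1 : dd x (fun S => π (u S)) = 0 := by
      rw [hdπ, hu']
      funext S
      rw [Pi.smul_apply, pow_succ', mul_smul, hzero]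
      rfl
    have h3 : Supp (i + 1) (fun S => π (u S)) := fun S hS => by
      simp only
      rw [hu S hS, map_zero]
    obtain ⟨v', hv', hv''⟩ := hV _ h3 h1
    choose s hs using hπ
    let v : Finset (Fin n) → M := fun S => if S.card = i + 1 + 1 then s (v' S) else 0
    have hv : Supp (i + 1 + 1) v := fun S hS => by simp [v, hS]
    have hπv : (fun S => π (v S)) = v' := by
      funext S
      by_cases hS : S.card = i + 1 + 1
      · simp only [v]
        rw [if_pos hS, hs]
      · simp only [v]
        rw [if_neg hS, map_zero, hv' S hS]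
    have h4 : ∀ S, π ((u + dd x v) S) = 0 := by
      intro S
      rw [Pi.add_apply, map_add]
      have h5 : dd x (fun S => π (v S)) S = π (dd x v S) := congrFun (hdπ v) S
      rw [← h5, hπv, hv'', ← map_add, h2, map_zero]
    choose w hw using fun S => hker _ (h4 S)
    let u' : Finset (Fin n) → M := fun S => if S.card = i + 1 then w S else 0
    have hu1 : Supp (i + 1) u' := fun S hS => by simp [u', hS]
    have hu2 : u + dd x v = z • u' := by
      funext S
      rw [Pi.smul_apply]
      by_cases hS : S.card = i + 1
      · rw [hw S]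
        simp only [u']
        rw [if_pos hS]
      · have h6 : (u + dd x v) S = 0 := (hu.add (dd_supp x hv)) S hS
        rw [h6]
        simp only [u']
        rw [if_neg hS, smul_zero]
    have h7 : dd x u = z • dd x u' := by
      rw [← dd_smul, ← hu2, dd_add, dd_dd h2, add_zero]
    apply ih u' hu1
    funext S
    apply hreg
    have h8 := congrFun h7 S
    have h9 := congrFun hu' S
    rw [Pi.smul_apply] at h8 h9
    simp only
    rw [Pi.smul_apply, ← h8, h9, pow_succ', mul_smul]

theorem van (x : Fin n → A) : ∀ (zs : List A) (M : Type) [AddCommGroup M] [Module A M],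
    (∀ m : M, m + m = 0) → RingTheory.Sequence.IsWeaklyRegular M zs →
    (∀ z ∈ zs, z ∈ (Ideal.span (Set.range x)).radical) →
    ∀ i : ℕ, n < i + zs.length → Van M x i := by
  intro zs
  induction zs with
  | nil =>
    intro M _ _ h2 _ _ i hi t ht _
    refine ⟨0, fun _ _ => rfl, ?_⟩
    have h1 : t = 0 := by
      funext S
      apply ht
      have : S.card ≤ n := by
        have := Finset.card_le_univ S
        rwa [Fintype.card_fin] at this
      simp only [List.length_nil, add_zero] at hi
      omega
    rw [h1]
    funext S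
    simp [dd]
  | cons z zs ih =>
    intro M _ _ h2 hreg hrad i hi
    rw [RingTheory.Sequence.isWeaklyRegular_cons_iff] at hreg
    apply van_step M h2 x z (hrad z (by simp)) hreg.1 i
    apply ih (QuotSMulTop z M) _ hreg.2 (fun y hy => hrad y (by simp [hy])) (i + 1)
    · simp only [List.length_cons] at hi
      omega
    · intro m
      obtain ⟨m, rfl⟩ := Submodule.mkQ_surjective _ m
      rw [← map_add, h2, map_zero]

end

theorem taskKV : H503R3.FR.TaskKV := by
  intro A M _ _ _ h2 n x zs hreg hrad hn c hc
  have hV := van x zs M h2 hreg hrad 1 (by omega)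
  let t : Finset (Fin n) → M := fun S => ∑ l, if S = {l} then c l else 0
  have ht1 : ∀ l, t {l} = c l := by
    intro l
    simp only [t]
    rw [Finset.sum_eq_single l]
    · rw [if_pos rfl]
    · intro m _ hml
      rw [if_neg]
      intro e
      exact hml (Finset.singleton_injective e).symm
    · intro h
      exact absurd (Finset.mem_univ l) h
  have ht : Supp 1 t := by
    intro S hS
    simp only [t]
    apply Finset.sum_eq_zero
    intro l _
    rw [if_neg]
    rintro rfl
    exact hS (Finset.card_singleton l)
  have hdt : dd x t = 0 := by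
    funext S
    by_cases hS : S = ∅
    · subst hS
      simp only [dd, Finset.compl_empty, Pi.zero_apply]
      rw [← hc]
      apply Finset.sum_congr rfl
      intro m _
      rw [show (insert m (∅ : Finset (Fin n))) = {m} from rfl, ht1]
    · simp only [dd, Pi.zero_apply]
      apply Finset.sum_eq_zero
      intro m hm
      rw [Finset.mem_compl] at hm
      rw [ht, smul_zero]
      rw [Finset.card_insert_of_notMem hm]
      have : 0 < S.card := Finset.card_pos.2 (Finset.nonempty_iff_ne_empty.2 hS)
      omega
  obtain ⟨u, hu, hu'⟩ := hV t ht hdt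
  refine ⟨fun l m => if l = m then 0 else u {l, m}, fun l => by simp, ?_, ?_⟩
  · intro l m
    by_cases h : l = m
    · subst h; rfl
    · show (if l = m then 0 else u {l, m}) = (if m = l then 0 else u {m, l})
      rw [if_neg h, if_neg (Ne.symm h), Finset.pair_comm]
  · intro l
    rw [← ht1 l, ← hu']
    simp only [dd]
    rw [← Finset.sum_subset (Finset.subset_univ ({l} : Finset (Fin n))ᶜ)]
    · apply Finset.sum_congr rfl
      intro m hm
      rw [Finset.mem_compl, Finset.mem_singleton] at hm
      rw [if_neg (Ne.symm hm), Finset.pair_comm l m]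
    · intro m _ hm
      rw [Finset.mem_compl, not_not, Finset.mem_singleton] at hm
      rw [hm, if_pos rfl, smul_zero]

end H503R3.FR.KV557
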