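import Pool.Agent.H503R3.FR.Stmts

/-! Task Psi: `R`-linear maps `D → R` with `1 ↦ (X 1) ^ 4` and `1 ↦ (X 2) ^ 4`. -/

set_option autoImplicit false

open MvPolynomial

namespace H503R3.FR.Psi600

theorem w_sq (k : Type) [Field k] [CharP k 2] : w k * w k = E k (w k) := by
  have h2 : (2 : D k) = 0 := by
    have : ((2 : ℕ) : D k) = 0 := CharP.cast_eq_zero (D k) 2
    exact_mod_cast this
  have hE : E k (w k) = (X 1 ^ 2) ^ 3 * X 2 ^ 2 + X 0 ^ 2 * X 1 ^ 2 * (X 2 ^ 2) ^ 3 := by
    simp only [w, E, map_add, map_mul, map_pow, expand_X]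
  rw [hE, w]
  linear_combination (X 1 ^ 3 * X 2 * (X 0 * X 1 * X 2 ^ 3)) * h2

theorem isEv_monomial {k : Type} [Field k] (m : Fin 3 →₀ ℕ) (c : k) (h : Even (m 1 + m 2)) :
    IsEv (monomial m c) := by
  classical
  intro m' hm'
  have := support_monomial_subset hm'
  rw [Finset.mem_singleton] at this
  rw [this]
  exact h

theorem isEv_add {k : Type} [Field k] (f g : D k) (hf : IsEv f) (hg : IsEv g) :
    IsEv (f + g) := by
  classical
  intro m hm
  rcases Finset.mem_union.1 (support_add hm) with h | h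
  · exact hf m h
  · exact hg m h

theorem isEv_w (k : Type) [Field k] : IsEv (w k) := by
  have h : w k = monomial (Finsupp.single 1 3 + Finsupp.single 2 1) 1 +
      monomial (Finsupp.single 0 1 + Finsupp.single 1 1 + Finsupp.single 2 3) 1 := by
    rw [w]
    simp only [X_pow_eq_monomial]
    simp only [X, monomial_mul, one_mul]
  rw [h]
  refine isEv_add _ _ (isEv_monomial _ _ ?_) (isEv_monomial _ _ ?_)
  · simp
    decide
  · simp
    decide

theorem isEv_X_sq (k : Type) [Field k] (i : Fin 3) : IsEv (X i * X i : D k) := by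
  have h : (X i * X i : D k) = monomial (Finsupp.single i 1 + Finsupp.single i 1) 1 := by
    simp only [X, monomial_mul, one_mul]
  rw [h]
  refine isEv_monomial _ _ ?_
  simp only [Finsupp.add_apply]
  refine ⟨(Finsupp.single i 1 : Fin 3 →₀ ℕ) 1 + (Finsupp.single i 1 : Fin 3 →₀ ℕ) 2, ?_⟩
  ring

/-- The map. -/
noncomputable def F {k : Type} [Field k] (P : ParityData k) (x : D k) (c : D k →+ D k)
    (d : D k) : D k :=
  E k (P.p0 (x * c (w k * d))) + E k (P.p1 (x * c d)) * w k

theorem F_add {k : Type} [Field k] (P : ParityData k) (x : D k) (c : D k →+ D k)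
    (d d' : D k) : F P x c (d + d') = F P x c d + F P x c d' := by
  simp only [F, mul_add, map_add]
  ring

theorem F_mem {k : Type} [Field k] [CharP k 2] (hM : TaskMem) (P : ParityData k) (x : D k)
    (c : D k →+ D k) (d : D k) : F P x c d ∈ R k :=
  (hM k _).2 ⟨_, _, P.ev _, P.od _, rfl⟩

theorem F_mul {k : Type} [Field k] [CharP k 2] (hM : TaskMem) (P : ParityData k) (x : D k)
    (c : D k →+ D k) (hc : ∀ a d, c (E k a * d) = a * c d) (s d : D k) (hs : s ∈ R k) :
    F P x c (s * d) = s * F P x c d := by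
  obtain ⟨a, b, ha, hb, rfl⟩ := (hM k s).1 hs
  have h1 : c ((E k a + E k b * w k) * d) = a * c d + b * c (w k * d) := by
    have : (E k a + E k b * w k) * d = E k a * d + E k b * (w k * d) := by ring
    rw [this, map_add, hc, hc]
  have h2 : c (w k * ((E k a + E k b * w k) * d)) = a * c (w k * d) + b * (w k * c d) := by
    have : w k * ((E k a + E k b * w k) * d) =
        E k a * (w k * d) + E k b * (E k (w k) * d) := by
      rw [← w_sq]; ring
    rw [this, map_add, hc, hc, hc]
  have h3 : P.p0 (x * (a * c (w k * d) + b * (w k * c d))) =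
      a * P.p0 (x * c (w k * d)) + b * (w k * P.p1 (x * c d)) := by
    have : x * (a * c (w k * d) + b * (w k * c d)) =
        a * (x * c (w k * d)) + b * (w k * (x * c d)) := by ring
    rw [this, map_add, P.ev_mul0 a _ ha, P.od_mul0 b _ hb, P.ev_mul1 (w k) _ (isEv_w k)]
  have h4 : P.p1 (x * (a * c d + b * c (w k * d))) =
      a * P.p1 (x * c d) + b * P.p0 (x * c (w k * d)) := by
    have : x * (a * c d + b * c (w k * d)) = a * (x * c d) + b * (x * c (w k * d)) := by ring
    rw [this, map_add, P.ev_mul1 a _ ha, P.od_mul1 b _ hb]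
  rw [F, F, h1, h2, h3, h4]
  simp only [map_add, map_mul]
  rw [← w_sq]
  ring

/-- The linear map. -/
noncomputable def psi {k : Type} [Field k] [CharP k 2] (hM : TaskMem) (P : ParityData k)
    (x : D k) (c : D k →+ D k) (hc : ∀ a d, c (E k a * d) = a * c d) : D k →ₗ[R k] R k where
  toFun d := ⟨F P x c d, F_mem hM P x c d⟩
  map_add' d d' := Subtype.ext (F_add P x c d d')
  map_smul' s d := by
    apply Subtype.ext
    exact F_mul hM P x c hc (s : D k) d s.2

theorem taskPsi : TaskPsi := by
  intro hPar hCo hM k _ _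
  obtain ⟨P⟩ := hPar k
  obtain ⟨C⟩ := hCo k
  refine ⟨⟨psi hM P (X 1) C.c1 C.mul1, ?_⟩, ⟨psi hM P (X 2) C.c2 C.mul2, ?_⟩⟩
  · apply Subtype.ext
    change F P (X 1) C.c1 1 = gen k 1
    rw [F, mul_one, C.w1, C.one1, mul_zero, map_zero, map_zero, zero_mul, add_zero,
      P.p0_ev _ (isEv_X_sq k 1)]
    simp only [E, map_mul, expand_X, gen, Matrix.cons_val]
    ring
  · apply Subtype.ext
    change F P (X 2) C.c2 1 = gen k 3
    rw [F, mul_one, C.w2, C.one2, mul_zero, map_zero, map_zero, zero_mul, add_zero,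
      P.p0_ev _ (isEv_X_sq k 2)]
    simp only [E, map_mul, expand_X, gen, Matrix.cons_val]
    ring

end H503R3.FR.Psi600
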