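import Pool.Agent.H503R3.FR.Stmts

set_option autoImplicit false

universe u

open MvPolynomial

namespace H503R3.FR.Root331

variable {k : Type u} [Field k]

lemma ev_add {f g : D k} (hf : IsEv f) (hg : IsEv g) : IsEv (f + g) := by
  classical
  intro m hm
  rcases Finset.mem_union.1 (MvPolynomial.support_add hm) with h | h
  · exact hf m h
  · exact hg m h

lemma ev_mul {f g : D k} (hf : IsEv f) (hg : IsEv g) : IsEv (f * g) := by
  classical
  intro m hm
  obtain ⟨a, ha, b, hb, rfl⟩ := Finset.mem_add.1 (MvPolynomial.support_mul f g hm)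
  have h1 := hf a ha
  have h2 := hg b hb
  have h3 : (a + b) 1 + (a + b) 2 = (a 1 + a 2) + (b 1 + b 2) := by
    simp only [Finsupp.add_apply]; ring
  rw [h3]
  exact h1.add h2

lemma ev_monomial (m : Fin 3 →₀ ℕ) (c : k) (h : Even (m 1 + m 2)) :
    IsEv (monomial m c : D k) := by
  classical
  intro m' hm'
  have := MvPolynomial.support_monomial_subset hm'
  rw [Finset.mem_singleton] at this
  rw [this]; exact h

lemma ev_C (c : k) : IsEv (C c : D k) := ev_monomial 0 c (by simp)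

lemma ev_X0 : IsEv (X 0 : D k) := ev_monomial _ _ (by simp)

lemma ev_X11 : IsEv (X 1 ^ 2 : D k) := by
  rw [X_pow_eq_monomial]
  exact ev_monomial _ _ (by simp)

lemma ev_X22 : IsEv (X 2 ^ 2 : D k) := by
  rw [X_pow_eq_monomial]
  exact ev_monomial _ _ (by simp)

lemma ev_X12 : IsEv (X 1 * X 2 : D k) := by
  have h : (X 1 * X 2 : D k) = monomial (Finsupp.single 1 1 + Finsupp.single 2 1) 1 := by
    unfold X
    rw [monomial_mul]; simp
  rw [h]
  refine ev_monomial _ _ ?_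
  simp only [Finsupp.add_apply, Finsupp.single_apply]
  decide

lemma ev_w : IsEv (w k) := by
  have h : w k = (X 1 ^ 2) * (X 1 * X 2) + X 0 * ((X 1 * X 2) * (X 2 ^ 2)) := by
    unfold w; ring
  rw [h]
  exact ev_add (ev_mul ev_X11 ev_X12) (ev_mul ev_X0 (ev_mul ev_X12 ev_X22))

lemma ev_gen (i : Fin 6) : IsEv (gen k i) := by
  fin_cases i
  · change IsEv (X 0 ^ 2 : D k)
    rw [pow_two]; exact ev_mul ev_X0 ev_X0
  · change IsEv (X 1 ^ 4 : D k)
    rw [show (X 1 ^ 4 : D k) = X 1 ^ 2 * X 1 ^ 2 by ring]; exact ev_mul ev_X11 ev_X11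
  · change IsEv (X 1 ^ 2 * X 2 ^ 2 : D k)
    exact ev_mul ev_X11 ev_X22
  · change IsEv (X 2 ^ 4 : D k)
    rw [show (X 2 ^ 4 : D k) = X 2 ^ 2 * X 2 ^ 2 by ring]; exact ev_mul ev_X22 ev_X22
  · change IsEv (X 1 ^ 2 * w k : D k)
    exact ev_mul ev_X11 ev_w
  · change IsEv (X 2 ^ 2 * w k : D k)
    exact ev_mul ev_X22 ev_w

lemma sq_add [CharP k 2] (a b : D k) : (a + b) ^ 2 = a ^ 2 + b ^ 2 := add_pow_char _ _ _

lemma sq_w [CharP k 2] : (w k) ^ 2 = E k (w k) := by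
  unfold w
  rw [sq_add]
  simp only [map_add, map_mul, map_pow, expand_X]
  ring

lemma sq_gen [CharP k 2] (i : Fin 6) : (gen k i) ^ 2 = E k (gen k i) := by
  fin_cases i
  · change (X 0 ^ 2 : D k) ^ 2 = E k (X 0 ^ 2)
    simp only [map_pow, expand_X]
  · change (X 1 ^ 4 : D k) ^ 2 = E k (X 1 ^ 4)
    simp only [map_pow, expand_X]; ring
  · change (X 1 ^ 2 * X 2 ^ 2 : D k) ^ 2 = E k (X 1 ^ 2 * X 2 ^ 2)
    simp only [map_mul, map_pow, expand_X]; ring
  · change (X 2 ^ 4 : D k) ^ 2 = E k (X 2 ^ 4)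
    simp only [map_pow, expand_X]; ring
  · change (X 1 ^ 2 * w k : D k) ^ 2 = E k (X 1 ^ 2 * w k)
    rw [mul_pow, sq_w, map_mul, map_pow, expand_X]
  · change (X 2 ^ 2 * w k : D k) ^ 2 = E k (X 2 ^ 2 * w k)
    rw [mul_pow, sq_w, map_mul, map_pow, expand_X]

lemma root_D [CharP k 2] (z : D k) : ∃ y : D k, z ^ 2 = E k y := by
  induction z using MvPolynomial.induction_on with
  | C a => exact ⟨C (a ^ 2), by simp [expand_C]⟩
  | add p q hp hq =>
    obtain ⟨a, ha⟩ := hp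
    obtain ⟨b, hb⟩ := hq
    exact ⟨a + b, by rw [sq_add, ha, hb, map_add]⟩
  | mul_X p i hp =>
    obtain ⟨a, ha⟩ := hp
    exact ⟨a * X i, by rw [mul_pow, ha, map_mul, expand_X]⟩

lemma root_R [CharP k 2] (z : D k) (hz : z ∈ R k) : ∃ y : D k, IsEv y ∧ z ^ 2 = E k y := by
  induction hz using Algebra.adjoin_induction with
  | mem x hx =>
    obtain ⟨i, rfl⟩ := hx
    exact ⟨gen k i, ev_gen i, sq_gen i⟩
  | algebraMap c => exact ⟨C (c ^ 2), ev_C _, by simp [expand_C, algebraMap_eq]⟩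
  | add x y _ _ hx hy =>
    obtain ⟨a, ha, ha'⟩ := hx
    obtain ⟨b, hb, hb'⟩ := hy
    exact ⟨a + b, ev_add ha hb, by rw [sq_add, ha', hb', map_add]⟩
  | mul x y _ _ hx hy =>
    obtain ⟨a, ha, ha'⟩ := hx
    obtain ⟨b, hb, hb'⟩ := hy
    exact ⟨a * b, ev_mul ha hb, by rw [mul_pow, ha', hb', map_mul]⟩

theorem taskRoot : TaskRoot := by
  intro k _ _ _
  exact ⟨root_D, root_R⟩

end H503R3.FR.Root331
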