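import Pool.Agent.H503R3.FR.Stmts

/-! Task G1 (helper798). -/

set_option autoImplicit false

open MvPolynomial

namespace H503R3.FR.G1H798

/-- the identity in an abstract ring of characteristic 2 -/
lemma abs_id {A : Type*} [CommRing A] (h2 : (2 : A) = 0)
    (s r1 r2 r3 r4 r5 Q A0 A1 A2 A3 A4 A5 A6 i : A)
    (hinv : A1 * i = 1) (hc : Q ^ 2 * A1 = A0)
    (E4 : r4 ^ 2 = r1 ^ 2 * r2 + s * r2 ^ 3) (E5 : r5 ^ 2 = r2 ^ 3 + s * r2 * r3 ^ 2)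
    (F1 : r1 * r2 ^ 3 = r1 ^ 2 * r2 * r3) (F2 : r2 ^ 4 = r1 ^ 2 * r3 ^ 2)
    (F3 : r3 * r2 ^ 3 = r3 ^ 2 * r1 * r2) (F4 : r4 * r2 ^ 3 = r1 ^ 2 * r3 * r5)
    (F5 : r5 * r2 ^ 3 = r3 ^ 2 * r1 * r4) :
    (r4 + Q * r5) ^ 2 = (r2 + i * (A2 * r2 * r3 + A3 * r3 ^ 2 + A5 * r3 * r5)) * r1 ^ 2 +
      (Q ^ 2 * s * r2 + i * (A4 * r1 * r2 + A6 * r1 * r4)) * r3 ^ 2 +
      (i * r2 ^ 3) * (A0 + (A1 * s + A2 * r1 + A3 * r2 + A4 * r3 + A5 * r4 + A6 * r5)) := by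
  linear_combination E4 + Q ^ 2 * E5 + Q * r4 * r5 * h2 - r2 ^ 3 * (s + Q ^ 2) * hinv +
    i * r2 ^ 3 * hc - i * (A2 * F1 + A3 * F2 + A4 * F3 + A5 * F4 + A6 * F5) -
    i * (A2 * r1 ^ 2 * r2 * r3 + A3 * r1 ^ 2 * r3 ^ 2 + A4 * r3 ^ 2 * r1 * r2 +
      A5 * r1 ^ 2 * r3 * r5 + A6 * r3 ^ 2 * r1 * r4) * h2

theorem taskG1 : H503R3.FR.TaskG1 := by
  intro k _ _ a q ha hq
  have h2k : (2 : k) = 0 := by exact_mod_cast CharP.cast_eq_zero k 2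
  have h2 : (2 : R k) = 0 := by
    have h := congrArg (algebraMap k (R k)) h2k
    rwa [map_ofNat, map_zero] at h
  have h2D : (2 : D k) = 0 := by
    have h := congrArg (algebraMap k (D k)) h2k
    rwa [map_ofNat, map_zero] at h
  have hinv : algebraMap k (R k) (a 1) * algebraMap k (R k) ((a 1)⁻¹) = 1 := by
    rw [← map_mul, mul_inv_cancel₀ ha, map_one]
  have hc : algebraMap k (R k) q ^ 2 * algebraMap k (R k) (a 1) = algebraMap k (R k) (a 0) := by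
    rw [← map_pow, ← map_mul, hq]
  have g0 : ((r k 0 : R k) : D k) = X 0 ^ 2 := rfl
  have g1 : ((r k 1 : R k) : D k) = X 1 ^ 4 := rfl
  have g2 : ((r k 2 : R k) : D k) = X 1 ^ 2 * X 2 ^ 2 := rfl
  have g3 : ((r k 3 : R k) : D k) = X 2 ^ 4 := rfl
  have g4 : ((r k 4 : R k) : D k) = X 1 ^ 2 * (X 1 ^ 3 * X 2 + X 0 * X 1 * X 2 ^ 3) := rfl
  have g5 : ((r k 5 : R k) : D k) = X 2 ^ 2 * (X 1 ^ 3 * X 2 + X 0 * X 1 * X 2 ^ 3) := rfl
  have E4 : r k 4 ^ 2 = r k 1 ^ 2 * r k 2 + r k 0 * r k 2 ^ 3 := by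
    apply Subtype.ext
    push_cast
    rw [g0, g1, g2, g4]
    linear_combination (X 0 * X 1 ^ 8 * X 2 ^ 4 : D k) * h2D
  have E5 : r k 5 ^ 2 = r k 2 ^ 3 + r k 0 * r k 2 * r k 3 ^ 2 := by
    apply Subtype.ext
    push_cast
    rw [g0, g2, g3, g5]
    linear_combination (X 0 * X 1 ^ 4 * X 2 ^ 8 : D k) * h2D
  have F1 : r k 1 * r k 2 ^ 3 = r k 1 ^ 2 * r k 2 * r k 3 := by
    apply Subtype.ext
    push_cast
    rw [g1, g2, g3]
    ring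
  have F2 : r k 2 ^ 4 = r k 1 ^ 2 * r k 3 ^ 2 := by
    apply Subtype.ext
    push_cast
    rw [g1, g2, g3]
    ring
  have F3 : r k 3 * r k 2 ^ 3 = r k 3 ^ 2 * r k 1 * r k 2 := by
    apply Subtype.ext
    push_cast
    rw [g1, g2, g3]
    ring
  have F4 : r k 4 * r k 2 ^ 3 = r k 1 ^ 2 * r k 3 * r k 5 := by
    apply Subtype.ext
    push_cast
    rw [g1, g2, g3, g4, g5]
    ring
  have F5 : r k 5 * r k 2 ^ 3 = r k 3 ^ 2 * r k 1 * r k 4 := by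
    apply Subtype.ext
    push_cast
    rw [g1, g2, g3, g4, g5]
    ring
  have hyp_eq : hyp k a = algebraMap k (R k) (a 0) + (algebraMap k (R k) (a 1) * r k 0 +
      algebraMap k (R k) (a 2) * r k 1 + algebraMap k (R k) (a 3) * r k 2 +
      algebraMap k (R k) (a 4) * r k 3 + algebraMap k (R k) (a 5) * r k 4 +
      algebraMap k (R k) (a 6) * r k 5) := by
    unfold hyp
    rw [Fin.sum_univ_six]
    rfl
  have key := abs_id h2 (r k 0) (r k 1) (r k 2) (r k 3) (r k 4) (r k 5) (algebraMap k (R k) q)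
    (algebraMap k (R k) (a 0)) (algebraMap k (R k) (a 1)) (algebraMap k (R k) (a 2))
    (algebraMap k (R k) (a 3)) (algebraMap k (R k) (a 4)) (algebraMap k (R k) (a 5))
    (algebraMap k (R k) (a 6)) (algebraMap k (R k) ((a 1)⁻¹)) hinv hc E4 E5 F1 F2 F3 F4 F5
  rw [key, ← hyp_eq]
  refine Ideal.add_mem _ (Ideal.add_mem _ ?_ ?_) ?_
  · exact Ideal.mul_mem_left _ _ (Ideal.subset_span (by simp))
  · exact Ideal.mul_mem_left _ _ (Ideal.subset_span (by simp))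
  · exact Ideal.mul_mem_left _ _ (Ideal.subset_span (by simp))

end H503R3.FR.G1H798
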