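import Pool.Agent.H503R3.FR.Stmts

/-! # TaskG2 (helper929). -/

set_option autoImplicit false

namespace H503R3.FR

namespace G2h929

open Polynomial

variable (k : Type) [Field k]

noncomputable def CCC : k →+* Polynomial (Polynomial (Polynomial k)) :=
  (Polynomial.C : Polynomial (Polynomial k) →+* _).comp
    ((Polynomial.C : Polynomial k →+* _).comp (Polynomial.C : k →+* _))

noncomputable def Phi : D k →+* Polynomial (Polynomial (Polynomial k)) :=
  MvPolynomial.eval₂Hom (R := k) (S₁ := Polynomial (Polynomial (Polynomial k))) (σ := Fin 3)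
    (CCC k) ![C (C X), C X, X]

theorem Phi_C (a : k) : Phi k (MvPolynomial.C a) = C (C (C a)) := by
  simp [Phi, CCC]

theorem Phi_X0 : Phi k (MvPolynomial.X 0) = C (C X) := by simp [Phi]
theorem Phi_X1 : Phi k (MvPolynomial.X 1) = C X := by simp [Phi]
theorem Phi_X2 : Phi k (MvPolynomial.X 2) = X := by simp [Phi]

theorem Phi_w : Phi k (w k) = C (X ^ 3) * X + C (C X * X) * X ^ 3 := by
  simp only [w, map_add, map_mul, map_pow, Phi_X0, Phi_X1, Phi_X2]

theorem gen_vals : gen k 0 = MvPolynomial.X 0 ^ 2 ∧ gen k 1 = MvPolynomial.X 1 ^ 4 ∧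
    gen k 2 = MvPolynomial.X 1 ^ 2 * MvPolynomial.X 2 ^ 2 ∧ gen k 3 = MvPolynomial.X 2 ^ 4 ∧
    gen k 4 = MvPolynomial.X 1 ^ 2 * w k ∧ gen k 5 = MvPolynomial.X 2 ^ 2 * w k :=
  ⟨rfl, rfl, rfl, rfl, rfl, rfl⟩

theorem P0 : Phi k (gen k 0) = C (C (X ^ 2)) := by
  rw [(gen_vals k).1]; simp only [map_pow, Phi_X0]
theorem P1 : Phi k (gen k 1) = C (X ^ 4) := by
  rw [(gen_vals k).2.1]; simp only [map_pow, Phi_X1]
theorem P2 : Phi k (gen k 2) = C (X ^ 2) * X ^ 2 := by
  rw [(gen_vals k).2.2.1]; simp only [map_pow, map_mul, Phi_X1, Phi_X2]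
theorem P3 : Phi k (gen k 3) = X ^ 4 := by
  rw [(gen_vals k).2.2.2.1]; simp only [map_pow, Phi_X2]
theorem P4 : Phi k (gen k 4) = C (X ^ 5) * X ^ 1 + C (C X * X ^ 3) * X ^ 3 := by
  rw [(gen_vals k).2.2.2.2.1]; simp only [map_pow, map_mul, Phi_X1, Phi_w]
  ring
theorem P5 : Phi k (gen k 5) = C (X ^ 3) * X ^ 3 + C (C X * X ^ 1) * X ^ 5 := by
  rw [(gen_vals k).2.2.2.2.2]; simp only [map_pow, map_mul, Phi_X2, Phi_w]
  ring

/-- the low coefficients vanish on `R` -/
theorem low (z : D k) (hz : z ∈ R k) :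
    ((Phi k z).coeff 0).coeff 1 = 0 ∧ ((Phi k z).coeff 1).coeff 0 = 0 ∧
      ((Phi k z).coeff 1).coeff 1 = 0 := by
  induction hz using Algebra.adjoin_induction with
  | mem x hx =>
    obtain ⟨i, rfl⟩ := hx
    fin_cases i
    · simp only [Fin.zero_eta, P0]; simp [coeff_C, -map_pow]
    · simp only [Fin.mk_one, P1]; simp [coeff_C, coeff_X_pow, -map_pow]
    · simp only [Fin.reduceFinMk, P2]; simp [coeff_X_pow, coeff_mul_X_pow', -map_pow]
    · simp only [Fin.reduceFinMk, P3]; simp [coeff_X_pow, -map_pow]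
    · simp only [Fin.reduceFinMk, P4]
      simp [coeff_X_pow, coeff_mul_X_pow', coeff_mul_X, coeff_C, -map_pow, -map_mul]
    · simp only [Fin.reduceFinMk, P5]
      simp [coeff_X_pow, coeff_mul_X_pow', coeff_C, -map_pow, -map_mul]
  | algebraMap a =>
    rw [MvPolynomial.algebraMap_eq, Phi_C]
    simp [coeff_C]
  | add x y _ _ hx hy =>
    simp only [map_add, coeff_add, hx.1, hx.2.1, hx.2.2, hy.1, hy.2.1, hy.2.2, add_zero,
      and_self]
  | mul x y _ _ hx hy =>
    simp only [map_mul, mul_coeff_zero, mul_coeff_one, coeff_add, hx.1, hx.2.1, hx.2.2, hy.1,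
      hy.2.1, hy.2.2, mul_zero, zero_mul, add_zero, and_self]

theorem evq_eq (q : k) (z : R k) : evq k q z = (((Phi k z).coeff 0).coeff 0).eval q := by
  have h : (MvPolynomial.aeval ![q, 0, 0] : D k →ₐ[k] k).toRingHom =
      (Polynomial.evalRingHom q).comp
        ((Polynomial.constantCoeff).comp ((Polynomial.constantCoeff).comp (Phi k))) := by
    apply MvPolynomial.ringHom_ext
    · intro a
      simp [Phi_C]
    · intro i
      fin_cases i
      · simp [Phi_X0]
      · simp [Phi_X1]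
      · simp [Phi_X2]
  have h2 := congrArg (fun f : D k →+* k => f (z : D k)) h
  simpa [evq] using h2

end G2h929

open G2h929 Polynomial in
theorem taskG2 : TaskG2 := by
  intro _ k _ _ a q ha hq u hu
  rw [Submodule.mem_span_triple] at hu
  obtain ⟨α, β, γ, h⟩ := hu
  have h1 := congrArg (fun z : R k => Phi k (z : D k)) h
  have hr : ∀ i, ((r k i : R k) : D k) = gen k i := fun i => rfl
  have halg : ∀ b : k, ((algebraMap k (R k) b : R k) : D k) = MvPolynomial.C b := fun b => rfl
  simp only [smul_eq_mul, hyp, Fin.sum_univ_six, Subalgebra.coe_add, Subalgebra.coe_mul, hr,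
    halg, map_add, map_mul, Phi_C, P0, P1, P2, P3, P4, P5] at h1
  obtain ⟨g1, g2, g3⟩ := low k γ γ.2
  rw [evq_eq]
  generalize Phi k (α : D k) = A at *
  generalize Phi k (β : D k) = B at *
  generalize Phi k (γ : D k) = Ga at *
  generalize Phi k (u : D k) = U at *
  simp only [mul_add, ← mul_assoc] at h1
  have e00 := congrArg (fun z : Polynomial (Polynomial (Polynomial k)) => (z.coeff 0).coeff 0) h1
  have e33 := congrArg (fun z : Polynomial (Polynomial (Polynomial k)) => (z.coeff 3).coeff 3) h1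
  simp only [coeff_add, coeff_mul_X_pow', coeff_mul_C, Nat.reduceLeDiff, if_true, if_false,
    Nat.reduceSub, coeff_zero, add_zero, zero_add, Nat.sub_self, g3, zero_mul] at e00 e33
  rw [show (Fin.succ (0 : Fin 6) : Fin 7) = 1 from rfl] at e00 e33
  generalize (Ga.coeff 0).coeff 0 = g at *
  generalize (Ga.coeff 3).coeff 3 = t at *
  generalize (U.coeff 0).coeff 0 = v at *
  have h2 : (2 : k) = 0 := CharTwo.two_eq_zero
  have h2' : (2 : Polynomial k) = 0 := by
    have : (C (2 : k) : Polynomial k) = 2 := map_ofNat C 2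
    rw [← this, h2, map_zero]
  have hC : (C (a 0) : Polynomial k) = C q ^ 2 * C (a 1) := by rw [← hq]; simp
  have hne : (X + C q : Polynomial k) ≠ 0 := X_add_C_ne_zero q
  have hCa : (C (a 1) : Polynomial k) ≠ 0 := by simpa using ha
  rw [hC] at e00 e33
  have f00 : g * (C (a 1) * (X + C q) ^ 2) = 0 := by
    linear_combination e00 + g * C (a 1) * X * C q * h2'
  have hg : g = 0 := by
    rcases mul_eq_zero.1 f00 with h | h
    · exact h
    · exact absurd h (mul_ne_zero hCa (pow_ne_zero 2 hne))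
  rw [hg] at e33
  have f33 : (v - t * C (a 1) * (X + C q)) * (X + C q) = 0 := by
    linear_combination -e33 - t * C (a 1) * X * C q * h2'
  have hv : v = t * C (a 1) * (X + C q) := by
    rcases mul_eq_zero.1 f33 with h | h
    · exact sub_eq_zero.1 h
    · exact absurd h hne
  rw [hv]
  simp only [eval_mul, eval_add, eval_X, eval_C]
  linear_combination eval q t * a 1 * q * h2

end H503R3.FR
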