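import Pool.Agent.H503R3.FR.Stmts

/-! Task G: no hyperplane section with `a 1 ≠ 0` is F-rational. -/

set_option autoImplicit false

universe u

open IsLocalRing MvPolynomial

namespace H503R3.FR.TG

theorem mem_lift {A : Type u} [CommRing A] (r1 r3 h v : A)
    (hv : Ideal.Quotient.mk (Ideal.span {h}) v ∈
      Ideal.span {Ideal.Quotient.mk (Ideal.span {h}) r1, Ideal.Quotient.mk (Ideal.span {h}) r3}) :
    v ∈ Ideal.span {r1, r3, h} := by
  rw [Ideal.mem_span_pair] at hv
  obtain ⟨a, b, hab⟩ := hv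
  obtain ⟨a', rfl⟩ := Ideal.Quotient.mk_surjective a
  obtain ⟨b', rfl⟩ := Ideal.Quotient.mk_surjective b
  rw [← map_mul, ← map_mul, ← map_add, Ideal.Quotient.eq, Ideal.mem_span_singleton'] at hab
  obtain ⟨c, hc⟩ := hab
  have : v = a' * r1 + b' * r3 - c * h := by rw [hc]; ring
  rw [this]
  refine sub_mem (add_mem ?_ ?_) ?_
  · exact Ideal.mul_mem_left _ _ (Ideal.subset_span (by simp))
  · exact Ideal.mul_mem_left _ _ (Ideal.subset_span (by simp))
  · exact Ideal.mul_mem_left _ _ (Ideal.subset_span (by simp))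

theorem mem_push {A B : Type u} [CommRing A] [CommRing B] (f : A →+* B) (s t h v : A)
    (hf : f h = 0) (hv : v ∈ Ideal.span {s, t, h}) : f v ∈ Ideal.span {f s, f t} := by
  have h1 : f v ∈ Ideal.map f (Ideal.span {s, t, h}) := Ideal.mem_map_of_mem f hv
  rw [Ideal.map_span] at h1
  refine (Ideal.span_le.2 ?_) h1
  rintro _ ⟨w, hw, rfl⟩
  simp only [Set.mem_insert_iff, Set.mem_singleton_iff] at hw
  rcases hw with rfl | rfl | rfl
  · exact Ideal.subset_span (by simp)
  · exact Ideal.subset_span (by simp)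
  · rw [hf]; exact zero_mem _

theorem core {A : Type u} {F : Type u} [CommRing A] [IsNoetherianRing A] [Field F] (ev : A →+* F)
    (r1 r3 h z0 : A) (h2 : (2 : A) = 0) (hr1 : ev r1 = 0) (hr3 : ev r3 = 0) (hh : ev h = 0)
    (hz : z0 ^ 2 ∈ Ideal.span {r1 ^ 2, r3 ^ 2, h})
    (hn : ∀ u, u * z0 ∈ Ideal.span {r1, r3, h} → ev u = 0)
    (hrad : ∀ u, ev u = 0 → ∃ N : ℕ, u ^ N ∈ Ideal.span {r1, r3, h})
    (hht : 3 ≤ (RingHom.ker ev).height) :
    ¬ FRational 2 (A ⧸ Ideal.span {h}) := by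
  intro hF
  set mk := Ideal.Quotient.mk (Ideal.span {h}) with hmk
  have hmkh : mk h = 0 := Ideal.Quotient.eq_zero_iff_mem.2 (Ideal.subset_span rfl)
  have hKp : (RingHom.ker ev).IsPrime := RingHom.ker_isPrime ev
  have hIK : Ideal.span {h} ≤ RingHom.ker ev := by
    rw [Ideal.span_le, Set.singleton_subset_iff]; exact hh
  set Q : Ideal (A ⧸ Ideal.span {h}) := (RingHom.ker ev).map mk with hQ
  have hQp : Q.IsPrime := Ideal.map_isPrime_of_surjective Ideal.Quotient.mk_surjective
    (by rw [Ideal.mk_ker]; exact hIK)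
  have memQ : ∀ u : A, mk u ∈ Q ↔ ev u = 0 := by
    intro u
    constructor
    · intro hu
      rw [hQ, Ideal.mem_map_iff_of_surjective _ Ideal.Quotient.mk_surjective] at hu
      obtain ⟨w, hw, hwu⟩ := hu
      have h3 : w - u ∈ Ideal.span {h} := (Ideal.Quotient.eq).1 hwu
      have h4 : ev (w - u) = 0 := hIK h3
      have h5 : ev w = 0 := hw
      rw [map_sub, h5, zero_sub, neg_eq_zero] at h4
      exact h4
    · intro hu
      exact Ideal.mem_map_of_mem mk (show u ∈ RingHom.ker ev from hu)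
  -- powers
  have radJ : ∀ u : A, ev u = 0 → ∃ N : ℕ, mk u ^ N ∈ Ideal.span {mk r1, mk r3} := by
    intro u hu
    obtain ⟨N, hN⟩ := hrad u hu
    refine ⟨N, ?_⟩
    rw [← map_pow]
    exact mem_push mk r1 r3 h _ hmkh hN
  have hQh2 : 2 ≤ Q.height := by
    have h5 := Ideal.height_le_height_add_one_of_mem (r := h) (p := RingHom.ker ev) hh
    have h6 : (2 : ℕ∞) + 1 ≤ Q.height + 1 := by
      refine le_trans (le_of_eq ?_) (hht.trans h5)
      norm_num
    exact (ENat.add_le_add_iff_right ENat.one_ne_top).1 h6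
  have hJQ : Ideal.span {mk r1, mk r3} ≤ Q := by
    rw [Ideal.span_le]
    rintro _ (rfl | rfl)
    · exact (memQ _).2 hr1
    · exact (memQ _).2 hr3
  have hQh : Q.height ≤ 2 := by
    have hmin : Q ∈ (Ideal.span {mk r1, mk r3}).minimalPrimes := by
      refine ⟨⟨hQp, hJQ⟩, ?_⟩
      rintro P' ⟨hP', hJP'⟩ _ v hv
      obtain ⟨u, rfl⟩ := Ideal.Quotient.mk_surjective v
      obtain ⟨N, hN⟩ := radJ u ((memQ u).1 hv)
      exact hP'.mem_of_pow_mem N (hJP' hN)
    refine (Ideal.height_le_card_of_mem_minimalPrimes_span (Set.toFinite _) hmin).trans ?_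
    have : ({mk r1, mk r3} : Set (A ⧸ Ideal.span {h})).ncard ≤ 2 := Set.ncard_insert_le _ _ |>.trans
      (by rw [Set.ncard_singleton])
    exact_mod_cast this
  have hQ2 : Q.height = 2 := le_antisymm hQh hQh2
  -- localise
  let B := Localization.AtPrime Q
  let loc : (A ⧸ Ideal.span {h}) →+* B := algebraMap (A ⧸ Ideal.span {h}) B
  let x : Fin 2 → B := ![loc (mk r1), loc (mk r3)]
  have hrange : Set.range x = {loc (mk r1), loc (mk r3)} := by
    simp [x, Matrix.range_cons, Matrix.range_empty, Set.pair_comm]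
  have hspan : Ideal.span (Set.range x) = Ideal.map loc (Ideal.span {mk r1, mk r3}) := by
    rw [hrange, Ideal.map_span, Set.image_pair]
  have hmax : Q.map loc = maximalIdeal B := Localization.AtPrime.map_eq_maximalIdeal
  have hsop : IsSystemOfParameters x := by
    refine ⟨?_, ?_⟩
    · rw [IsLocalization.AtPrime.ringKrullDim_eq_height Q B, hQ2]
      rfl
    · apply le_antisymm
      · have : (maximalIdeal B).IsPrime := (maximalIdeal.isMaximal B).isPrime
        refine (Ideal.IsPrime.radical_le_iff this).2 ?_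
        rw [hspan, ← hmax]
        exact Ideal.map_mono hJQ
      · rw [← hmax, Ideal.map_le_iff_le_comap]
        intro v hv
        obtain ⟨u, rfl⟩ := Ideal.Quotient.mk_surjective v
        obtain ⟨N, hN⟩ := radJ u ((memQ u).1 hv)
        refine ⟨N, ?_⟩
        rw [hspan, ← map_pow]
        exact Ideal.mem_map_of_mem loc hN
  have h2B : (2 : B) = 0 := by
    have h7 : (loc.comp mk) (2 : A) = 0 := by rw [h2, map_zero]
    rwa [map_ofNat] at h7
  have : CharP B 2 := CharTwo.of_one_ne_zero_of_two_eq_zero one_ne_zero h2B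
  have htc : MemTightClosure 2 (Ideal.span (Set.range x)) (loc (mk z0)) := by
    refine ⟨1, ?_, 1, ?_⟩
    · intro P' hP' h1
      exact hP'.1.1.ne_top ((Ideal.eq_top_iff_one P').2 h1)
    · intro e he
      obtain ⟨e', rfl⟩ : ∃ e', e = e' + 1 := ⟨e - 1, by omega⟩
      have h8 : loc (mk z0) ^ 2 ∈ Ideal.span {loc (mk r1) ^ 2, loc (mk r3) ^ 2} := by
        have := mem_push (loc.comp mk) (r1 ^ 2) (r3 ^ 2) h (z0 ^ 2)
          (by rw [RingHom.comp_apply, hmkh, map_zero]) hz
        simpa only [RingHom.comp_apply, map_pow] using this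
      rw [Ideal.mem_span_pair] at h8
      obtain ⟨a, b, hab⟩ := h8
      rw [one_mul, show 2 ^ (e' + 1) = 2 * 2 ^ e' by ring, pow_mul, ← hab, add_pow_char_pow,
        mul_pow, mul_pow, ← pow_mul, ← pow_mul]
      refine add_mem (Ideal.mul_mem_left _ _ (Ideal.subset_span ⟨_, Ideal.subset_span ?_, rfl⟩))
        (Ideal.mul_mem_left _ _ (Ideal.subset_span ⟨_, Ideal.subset_span ?_, rfl⟩))
      · rw [hrange]; simp
      · rw [hrange]; simp
  have hmem := hF Q 2 x hsop _ htc
  rw [hspan, IsLocalization.algebraMap_mem_map_algebraMap_iff Q.primeCompl B] at hmem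
  obtain ⟨t, ht, htz⟩ := hmem
  obtain ⟨u, rfl⟩ := Ideal.Quotient.mk_surjective t
  rw [← map_mul] at htz
  exact ht ((memQ u).2 (hn u (mem_lift r1 r3 h _ htz)))

/-- Noetherianity of `R k`. -/
theorem noeth (k : Type) [Field k] : IsNoetherianRing (R k) := by
  have : Algebra.FiniteType k (R k) := by
    refine (Subalgebra.fg_iff_finiteType _).1 ?_
    exact ⟨(Set.finite_range (gen k)).toFinset, by rw [Set.Finite.coe_toFinset]⟩
  exact Algebra.FiniteType.isNoetherianRing k (R k)

theorem taskG (hMem : TaskMem) : TaskG := by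
  intro h1 h2m h3 h4 k _ _ _ a ha
  obtain ⟨q, hq⟩ : ∃ q : k, q ^ 2 * a 1 = a 0 := by
    obtain ⟨q, hq⟩ := IsAlgClosed.exists_pow_nat_eq (a 0 / a 1) (n := 2) (by norm_num)
    exact ⟨q, by rw [hq]; field_simp⟩
  have := noeth k
  have h20 : (2 : R k) = 0 := by
    have : (2 : k) = 0 := CharP.cast_eq_zero k 2 |> (by simpa using ·)
    have h' : algebraMap k (R k) (2 : k) = 0 := by rw [this, map_zero]
    rwa [map_ofNat] at h'
  refine core (F := k) (evq k q).toRingHom (r k 1) (r k 3) (hyp k a)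
    (r k 4 + algebraMap k (R k) q * r k 5) h20 ?_ ?_ (h3 k a q ha hq).1 (h1 k a q ha hq)
    (h2m hMem k a q ha hq) (h3 k a q ha hq).2 (h4 k q)
  · change (MvPolynomial.aeval ![q, 0, 0]) (gen k 1) = 0
    simp [gen]
  · change (MvPolynomial.aeval ![q, 0, 0]) (gen k 3) = 0
    simp [gen]

end H503R3.FR.TG
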