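import Pool.Agent.H503R3.FR.Stmts

/-! Task HR: Koszul vanishing for `R` localised at a vertex prime. -/

set_option autoImplicit false

open IsLocalRing MvPolynomial

namespace H503R3.FR.HR405

theorem rad_le {A : Type} [CommRing A] {n : ℕ} (x : Fin n → A) (e : Fin n → ℕ) :
    (Ideal.span (Set.range x)).radical ≤
      (Ideal.span (Set.range fun l => x l ^ e l)).radical := by
  rw [Ideal.radical_le_radical_iff, Ideal.span_le]
  rintro _ ⟨l, rfl⟩
  exact ⟨e l, Ideal.subset_span ⟨l, rfl⟩⟩

theorem main : TaskHR := by
  intro hKV k _ _ P _ zr hreg hmem n x hn hrad e he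
  have h2 : ∀ m : Localization.AtPrime P, m + m = 0 := by
    intro m
    have h : (2 : R k) = 0 := by
      have h0 : (2 : k) = 0 := by exact_mod_cast CharP.cast_eq_zero k 2
      rw [← map_ofNat (algebraMap k (R k)) 2, h0, map_zero]
    have h' : (2 : Localization.AtPrime P) = 0 := by
      rw [← map_ofNat (algebraMap (R k) (Localization.AtPrime P)) 2, h, map_zero]
    rw [← two_mul, h', zero_mul]
  refine hKV (Localization.AtPrime P) (Localization.AtPrime P) h2 n (fun l => x l ^ e l)
    (zr.map (algebraMap (R k) (Localization.AtPrime P))) ?_ ?_ ?_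
  · exact RingTheory.Sequence.IsWeaklyRegular.of_isLocalization (Localization.AtPrime P)
      P.primeCompl hreg
  · intro z hz
    obtain ⟨y, hy, rfl⟩ := List.mem_map.mp hz
    apply rad_le x e
    rw [hrad]
    exact (IsLocalization.AtPrime.to_map_mem_maximal_iff (Localization.AtPrime P) P y).mpr
      (hmem y hy)
  · simpa using hn

end H503R3.FR.HR405

namespace H503R3.FR

theorem taskHR : TaskHR := HR405.main

end H503R3.FR
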