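import Mathlib
import Pool.Agent.H503R3.FR.Stmts

/-! Task Mem of project H503-FR (written by helper782). -/

set_option autoImplicit false

open MvPolynomial

namespace H503R3.FR.Mem782

open H503R3.FR

section
variable {k : Type} [Field k]

lemma ev_mul {a b : D k} (ha : IsEv a) (hb : IsEv b) : IsEv (a * b) := by
  classical
  intro m hm
  obtain ⟨m1, h1, m2, h2, rfl⟩ := Finset.mem_add.1 (MvPolynomial.support_mul _ _ hm)
  obtain ⟨r, hr⟩ := ha m1 h1
  obtain ⟨s, hs⟩ := hb m2 h2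
  rw [Finsupp.add_apply, Finsupp.add_apply]
  exact ⟨r + s, by omega⟩

lemma ev_mul_od {a b : D k} (ha : IsEv a) (hb : IsOd b) : IsOd (a * b) := by
  classical
  intro m hm
  obtain ⟨m1, h1, m2, h2, rfl⟩ := Finset.mem_add.1 (MvPolynomial.support_mul _ _ hm)
  obtain ⟨r, hr⟩ := ha m1 h1
  obtain ⟨s, hs⟩ := hb m2 h2
  rw [Finsupp.add_apply, Finsupp.add_apply]
  exact ⟨r + s, by omega⟩

lemma od_mul_od {a b : D k} (ha : IsOd a) (hb : IsOd b) : IsEv (a * b) := by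
  classical
  intro m hm
  obtain ⟨m1, h1, m2, h2, rfl⟩ := Finset.mem_add.1 (MvPolynomial.support_mul _ _ hm)
  obtain ⟨r, hr⟩ := ha m1 h1
  obtain ⟨s, hs⟩ := hb m2 h2
  rw [Finsupp.add_apply, Finsupp.add_apply]
  exact ⟨r + s + 1, by omega⟩

lemma ev_add {a b : D k} (ha : IsEv a) (hb : IsEv b) : IsEv (a + b) := by
  classical
  intro m hm
  rcases Finset.mem_union.1 (MvPolynomial.support_add hm) with h | h
  · exact ha m h
  · exact hb m h

lemma od_add {a b : D k} (ha : IsOd a) (hb : IsOd b) : IsOd (a + b) := by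
  classical
  intro m hm
  rcases Finset.mem_union.1 (MvPolynomial.support_add hm) with h | h
  · exact ha m h
  · exact hb m h

lemma ev_C (c : k) : IsEv (C c : D k) := by
  classical
  intro m hm
  rw [MvPolynomial.mem_support_iff, MvPolynomial.coeff_C] at hm
  have : 0 = m := by
    by_contra h
    rw [if_neg h] at hm
    exact hm rfl
  rw [← this]
  simp

lemma od_zero : IsOd (0 : D k) := by
  intro m hm
  simp at hm

lemma mem_supp_X {i : Fin 3} {m : Fin 3 →₀ ℕ} (hm : m ∈ (X i : D k).support) :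
    m = Finsupp.single i 1 := by
  classical
  rw [MvPolynomial.support_X] at hm
  exact Finset.mem_singleton.1 hm

lemma ev_X0 : IsEv (X 0 : D k) := by
  intro m hm
  rw [mem_supp_X hm]
  simp

lemma od_X1 : IsOd (X 1 : D k) := by
  intro m hm
  rw [mem_supp_X hm]
  simp

lemma od_X2 : IsOd (X 2 : D k) := by
  intro m hm
  rw [mem_supp_X hm]
  simp

lemma ev_w : IsEv (w k) := by
  have h1 : w k = (X 1 * X 1) * (X 1 * X 2) + X 0 * ((X 1 * X 2) * (X 2 * X 2)) := by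
    unfold w; ring
  rw [h1]
  exact ev_add (ev_mul (od_mul_od od_X1 od_X1) (od_mul_od od_X1 od_X2))
    (ev_mul ev_X0 (ev_mul (od_mul_od od_X1 od_X2) (od_mul_od od_X2 od_X2)))

lemma E_w : E k (w k) = (X 1 ^ 3 * X 2) ^ 2 + (X 0 * X 1 * X 2 ^ 3) ^ 2 := by
  unfold w
  simp only [map_add, map_mul, map_pow, MvPolynomial.expand_X]
  ring

lemma w_sq [CharP k 2] : w k * w k = E k (w k) := by
  rw [E_w]
  unfold w
  have h2 : (2 : D k) = 0 := by
    have : (2 : D k) = C (2 : k) := (map_ofNat C 2).symm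
    rw [this, CharTwo.two_eq_zero, C_0]
  linear_combination (X 1 ^ 3 * X 2) * (X 0 * X 1 * X 2 ^ 3) * h2

lemma E_monomial (m : Fin 3 →₀ ℕ) (c : k) : E k (monomial m c) =
    C c * ((X 0 ^ 2) ^ m 0 * (X 1 ^ 2) ^ m 1 * (X 2 ^ 2) ^ m 2) := by
  rw [MvPolynomial.monomial_eq, Finsupp.prod_fintype _ _ (fun i => pow_zero _), Fin.prod_univ_three]
  simp only [map_mul, map_pow, MvPolynomial.expand_X, MvPolynomial.expand_C]

lemma g0 : (X 0 ^ 2 : D k) ∈ R k := (r k 0).2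
lemma g1 : (X 1 ^ 4 : D k) ∈ R k := (r k 1).2
lemma g2 : (X 1 ^ 2 * X 2 ^ 2 : D k) ∈ R k := (r k 2).2
lemma g3 : (X 2 ^ 4 : D k) ∈ R k := (r k 3).2
lemma g4 : (X 1 ^ 2 * w k : D k) ∈ R k := (r k 4).2
lemma g5 : (X 2 ^ 2 * w k : D k) ∈ R k := (r k 5).2
lemma gC (c : k) : (C c : D k) ∈ R k := (R k).algebraMap_mem c

lemma E_ev_mem {a : D k} (ha : IsEv a) : E k a ∈ R k := by
  rw [a.as_sum, map_sum]
  refine Subalgebra.sum_mem _ fun m hm => ?_
  rw [E_monomial]
  refine Subalgebra.mul_mem _ (gC _) ?_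
  rw [mul_assoc]
  refine Subalgebra.mul_mem _ (Subalgebra.pow_mem _ g0 _) ?_
  obtain ⟨r, hr⟩ := ha m hm
  rcases Nat.even_or_odd' (m 1) with ⟨s, hs | hs⟩
  · rcases Nat.even_or_odd' (m 2) with ⟨t, ht | ht⟩
    · have e : ((X 1 ^ 2) ^ m 1 * (X 2 ^ 2) ^ m 2 : D k) = (X 1 ^ 4) ^ s * (X 2 ^ 4) ^ t := by
        rw [hs, ht]; ring
      rw [e]
      exact Subalgebra.mul_mem _ (Subalgebra.pow_mem _ g1 _) (Subalgebra.pow_mem _ g3 _)
    · omega
  · rcases Nat.even_or_odd' (m 2) with ⟨t, ht | ht⟩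
    · omega
    · have e : ((X 1 ^ 2) ^ m 1 * (X 2 ^ 2) ^ m 2 : D k) =
          (X 1 ^ 4) ^ s * (X 2 ^ 4) ^ t * (X 1 ^ 2 * X 2 ^ 2) := by
        rw [hs, ht]; ring
      rw [e]
      exact Subalgebra.mul_mem _ (Subalgebra.mul_mem _ (Subalgebra.pow_mem _ g1 _)
        (Subalgebra.pow_mem _ g3 _)) g2

lemma E_od_mem {b : D k} (hb : IsOd b) : E k b * w k ∈ R k := by
  rw [b.as_sum, map_sum, Finset.sum_mul]
  refine Subalgebra.sum_mem _ fun m hm => ?_
  rw [E_monomial, mul_assoc]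
  refine Subalgebra.mul_mem _ (gC _) ?_
  rw [mul_assoc, mul_assoc]
  refine Subalgebra.mul_mem _ (Subalgebra.pow_mem _ g0 _) ?_
  obtain ⟨r, hr⟩ := hb m hm
  rcases Nat.even_or_odd' (m 1) with ⟨s, hs | hs⟩
  · rcases Nat.even_or_odd' (m 2) with ⟨t, ht | ht⟩
    · omega
    · have e : ((X 1 ^ 2) ^ m 1 * ((X 2 ^ 2) ^ m 2 * w k) : D k) =
          (X 1 ^ 4) ^ s * (X 2 ^ 4) ^ t * (X 2 ^ 2 * w k) := by
        rw [hs, ht]; ring
      rw [e]
      exact Subalgebra.mul_mem _ (Subalgebra.mul_mem _ (Subalgebra.pow_mem _ g1 _)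
        (Subalgebra.pow_mem _ g3 _)) g5
  · rcases Nat.even_or_odd' (m 2) with ⟨t, ht | ht⟩
    · have e : ((X 1 ^ 2) ^ m 1 * ((X 2 ^ 2) ^ m 2 * w k) : D k) =
          (X 1 ^ 4) ^ s * (X 2 ^ 4) ^ t * (X 1 ^ 2 * w k) := by
        rw [hs, ht]; ring
      rw [e]
      exact Subalgebra.mul_mem _ (Subalgebra.mul_mem _ (Subalgebra.pow_mem _ g1 _)
        (Subalgebra.pow_mem _ g3 _)) g4
    · omega

end

theorem taskMem : TaskMem := by
  intro k _ _ z
  constructor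
  · intro hz
    induction hz using Algebra.adjoin_induction with
    | mem z hz =>
      obtain ⟨i, rfl⟩ := hz
      fin_cases i
      · exact ⟨X 0, 0, ev_X0, od_zero, by simp [gen]⟩
      · refine ⟨X 1 * X 1, 0, od_mul_od od_X1 od_X1, od_zero, ?_⟩
        simp [gen]; ring
      · refine ⟨X 1 * X 2, 0, od_mul_od od_X1 od_X2, od_zero, ?_⟩
        simp [gen]
      · refine ⟨X 2 * X 2, 0, od_mul_od od_X2 od_X2, od_zero, ?_⟩
        simp [gen]; ring
      · refine ⟨0, X 1, by simpa using ev_C (0 : k), od_X1, ?_⟩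
        simp [gen]
      · refine ⟨0, X 2, by simpa using ev_C (0 : k), od_X2, ?_⟩
        simp [gen]
    | algebraMap c =>
      exact ⟨C c, 0, ev_C c, od_zero, by simp [MvPolynomial.algebraMap_eq]⟩
    | add x y _ _ hx hy =>
      obtain ⟨a, b, ha, hb, rfl⟩ := hx
      obtain ⟨a', b', ha', hb', rfl⟩ := hy
      exact ⟨a + a', b + b', ev_add ha ha', od_add hb hb', by rw [map_add, map_add]; ring⟩
    | mul x y _ _ hx hy =>
      obtain ⟨a, b, ha, hb, rfl⟩ := hx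
      obtain ⟨a', b', ha', hb', rfl⟩ := hy
      refine ⟨a * a' + b * b' * w k, a * b' + a' * b,
        ev_add (ev_mul ha ha') (ev_mul (od_mul_od hb hb') ev_w),
        od_add (ev_mul_od ha hb') (ev_mul_od ha' hb), ?_⟩
      simp only [map_add, map_mul]
      linear_combination (E k b * E k b') * (w_sq (k := k))
  · rintro ⟨a, b, ha, hb, rfl⟩
    exact Subalgebra.add_mem _ (E_ev_mem ha) (E_od_mem hb)

end H503R3.FR.Mem782
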