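import Pool.Agent.H503R3.FR.Stmts

set_option autoImplicit false

open IsLocalRing MvPolynomial

namespace H503R3.FR.V2h544

theorem taskV2 : TaskV2 := by
  intro hVertex hParity hCoord hMem hRoot k _ _ _ P _ n x y hy hxy hloc z u hu huz
  obtain ⟨pd⟩ := hParity k
  obtain ⟨cd⟩ := hCoord k
  -- even and odd products
  have evmul : ∀ f g : D k, IsEv f → IsEv g → IsEv (f * g) := by
    intro f g hf hg
    have h1 := pd.ev (f * g)
    rw [pd.ev_mul0 f g hf, pd.p0_ev g hg] at h1
    exact h1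
  have odmul : ∀ f g : D k, IsEv f → IsOd g → IsOd (f * g) := by
    intro f g hf hg
    have h1 := pd.od (f * g)
    rw [pd.ev_mul1 f g hf, pd.p1_od g hg] at h1
    exact h1
  obtain ⟨v, hv, huv⟩ := (hRoot k).2 (u : D k) u.2
  have hvR : E k v ∈ R k := by
    rw [← huv]
    exact (R k).pow_mem u.2 2
  have hvP : (⟨E k v, hvR⟩ : R k) ∉ P := by
    intro h
    have h2 : (⟨E k v, hvR⟩ : R k) = u ^ 2 := by
      apply Subtype.ext
      simp [huv]
    rw [h2] at h
    exact hu (Ideal.IsPrime.mem_of_pow_mem inferInstance 2 h)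
  have hvM : v ∈ MP P := ⟨hv, hvR, hvP⟩
  obtain ⟨a, b, ha, hb, hz⟩ := (hMem k (z : D k)).1 z.2
  -- the relation
  obtain ⟨d, hd⟩ := Ideal.mem_span_range_iff_exists_fun.1 huz
  have hrel : ∑ l, E k (y l) * ((u : D k) * d l) = E k v * (E k a * 1 + E k b * w k) := by
    rw [← huv, mul_one, ← hz, pow_two, mul_assoc, ← hd, Finset.mul_sum]
    refine Finset.sum_congr rfl fun l _ => ?_
    rw [← hxy l]
    ring
  have hc0 : v * a = ∑ l, y l * cd.c0 ((u : D k) * d l) := by
    have h := congrArg cd.c0 hrel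
    rw [map_sum, cd.mul0, map_add, cd.mul0, cd.mul0, cd.one0, cd.w0] at h
    simp only [cd.mul0] at h
    rw [h]; ring
  have hc1 : v * (X 1 * b) = ∑ l, y l * cd.c1 ((u : D k) * d l) := by
    have h := congrArg cd.c1 hrel
    rw [map_sum, cd.mul1, map_add, cd.mul1, cd.mul1, cd.one1, cd.w1] at h
    simp only [cd.mul1] at h
    rw [h]; ring
  have hc2 : v * (X 2 * b) = ∑ l, y l * cd.c2 ((u : D k) * d l) := by
    have h := congrArg cd.c2 hrel
    rw [map_sum, cd.mul2, map_add, cd.mul2, cd.mul2, cd.one2, cd.w2] at h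
    simp only [cd.mul2] at h
    rw [h]; ring
  have mem_of : ∀ (t : D k) (c : Fin n → D k), t = ∑ l, y l * c l →
      t ∈ Ideal.span (Set.range y) := by
    intro t c h
    rw [Ideal.mem_span_range_iff_exists_fun]
    exact ⟨c, by rw [h]; exact Finset.sum_congr rfl fun l _ => mul_comm _ _⟩
  obtain ⟨v', hv'M, hv'b⟩ := hVertex hParity k P n y hy hloc b hb v hvM
    (mem_of _ _ hc1) (mem_of _ _ hc2)
  obtain ⟨hv', hv'R, hv'P⟩ := hv'M
  obtain ⟨β, hβ⟩ := Ideal.mem_span_range_iff_exists_fun.1 hv'b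
  -- parity of the coefficients
  have hα : v * a = ∑ l, y l * pd.p0 (cd.c0 ((u : D k) * d l)) := by
    have h := congrArg pd.p0 hc0
    rw [pd.ev_mul0 v a hv, pd.p0_ev a ha, map_sum] at h
    rw [h]
    exact Finset.sum_congr rfl fun l _ => pd.ev_mul0 _ _ (hy l)
  have hβ' : v' * b = ∑ l, y l * pd.p1 (β l) := by
    have h := congrArg pd.p1 hβ
    rw [pd.ev_mul1 v' b hv', pd.p1_od b hb, map_sum] at h
    rw [← h]
    refine Finset.sum_congr rfl fun l _ => ?_
    rw [mul_comm (β l) (y l), pd.ev_mul1 _ _ (hy l)]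
  set α : Fin n → D k := fun l => pd.p0 (cd.c0 ((u : D k) * d l)) with hαdef
  have hαev : ∀ l, IsEv (α l) := fun l => pd.ev _
  have hβod : ∀ l, IsOd (pd.p1 (β l)) := fun l => pd.od _
  -- the coefficients in `R`
  have hcR : ∀ l, E k (v' * α l) + E k (v * pd.p1 (β l)) * w k ∈ R k := fun l =>
    (hMem k _).2 ⟨v' * α l, v * pd.p1 (β l), evmul _ _ hv' (hαev l),
      odmul _ _ hv (hβod l), rfl⟩
  refine ⟨⟨E k v, hvR⟩ * ⟨E k v', hv'R⟩, ?_, ?_⟩
  · intro h
    rcases Ideal.IsPrime.mem_or_mem inferInstance h with h | h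
    · exact hvP h
    · exact hv'P h
  · rw [Ideal.mem_span_range_iff_exists_fun]
    refine ⟨fun l => ⟨_, hcR l⟩, ?_⟩
    apply Subtype.ext
    have hEa : E k v * E k a = ∑ l, E k (y l) * E k (α l) := by
      rw [← map_mul, hα, map_sum]
      exact Finset.sum_congr rfl fun l _ => map_mul _ _ _
    have hEb : E k v' * E k b = ∑ l, E k (y l) * E k (pd.p1 (β l)) := by
      rw [← map_mul, hβ', map_sum]
      exact Finset.sum_congr rfl fun l _ => map_mul _ _ _
    have e1 : ((∑ l, (⟨_, hcR l⟩ : R k) * x l ^ 2 : R k) : D k) =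
        ∑ l, (E k (v' * α l) + E k (v * pd.p1 (β l)) * w k) * E k (y l) := by
      rw [AddSubmonoidClass.coe_finsetSum]
      refine Finset.sum_congr rfl fun l _ => ?_
      rw [← hxy l]
      rfl
    rw [e1]
    have e2 : (((⟨E k v, hvR⟩ : R k) * ⟨E k v', hv'R⟩ * z : R k) : D k) =
        E k v' * (E k v * E k a) + E k v * (E k v' * E k b) * w k := by
      change E k v * E k v' * (z : D k) = _
      rw [hz]; ring
    rw [e2, hEa, hEb, Finset.mul_sum, Finset.mul_sum, Finset.sum_mul, ← Finset.sum_add_distrib]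
    refine Finset.sum_congr rfl fun l _ => ?_
    rw [map_mul, map_mul]
    ring

end H503R3.FR.V2h544
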