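import Pool.Agent.H503R3.FR.Stmts

set_option autoImplicit false

open IsLocalRing MvPolynomial

namespace H503R3.FR

namespace ZsDimH62

instance noethR (k : Type) [Field k] : IsNoetherianRing (R k) := by
  have h1 : (R k).FG := by
    have := Subalgebra.fg_adjoin_finset (R := k) (Set.finite_range (gen k)).toFinset
    rwa [Set.Finite.coe_toFinset] at this
  have h2 : Algebra.FiniteType k (R k) := (Subalgebra.fg_iff_finiteType _).1 h1
  exact Algebra.FiniteType.isNoetherianRing k (R k)

theorem dim_le {A : Type} [CommRing A] [IsNoetherianRing A] (P : Ideal A) [hP : P.IsPrime]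
    (s : Finset A) (n : ℕ) (hs : s.card ≤ n) (h1 : ∀ z ∈ s, z ∈ P)
    (h2 : P ≤ (Ideal.span (s : Set A)).radical) :
    ringKrullDim (Localization.AtPrime P) ≤ (n : WithBot ℕ∞) := by
  rw [IsLocalization.AtPrime.ringKrullDim_eq_height P (Localization.AtPrime P)]
  have hmin : P ∈ (Ideal.span (s : Set A)).minimalPrimes := by
    refine ⟨⟨hP, Ideal.span_le.2 h1⟩, ?_⟩
    rintro Q ⟨hQ, hQ2⟩ _
    exact h2.trans (hQ.radical_le_iff.2 hQ2)
  have := Ideal.height_le_card_of_mem_minimalPrimes_span_finset hmin
  have h3 : P.height ≤ (n : ℕ∞) := this.trans (by exact_mod_cast hs)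
  exact_mod_cast h3

theorem isEv_X1 (k : Type) [Field k] : IsEv (X 1 ^ 2 : D k) := by
  intro m hm
  have : (X 1 ^ 2 : D k) = monomial (Finsupp.single 1 2) 1 := by
    rw [MvPolynomial.X_pow_eq_monomial]
  rw [this] at hm
  have h := MvPolynomial.support_monomial_subset hm
  rw [Finset.mem_singleton] at h
  subst h
  simp

theorem isEv_X2 (k : Type) [Field k] : IsEv (X 2 ^ 2 : D k) := by
  intro m hm
  have : (X 2 ^ 2 : D k) = monomial (Finsupp.single 2 2) 1 := by
    rw [MvPolynomial.X_pow_eq_monomial]
  rw [this] at hm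
  have h := MvPolynomial.support_monomial_subset hm
  rw [Finset.mem_singleton] at h
  subst h
  simp

theorem E1 (k : Type) [Field k] : ((r k 1 : R k) : D k) = E k (X 1 ^ 2) := by
  show gen k 1 = _
  rw [map_pow, MvPolynomial.expand_X, ← pow_mul]
  rfl

theorem E3 (k : Type) [Field k] : ((r k 3 : R k) : D k) = E k (X 2 ^ 2) := by
  show gen k 3 = _
  rw [map_pow, MvPolynomial.expand_X, ← pow_mul]
  rfl

end ZsDimH62

open ZsDimH62 in
theorem taskZsDim : TaskZsDim := by
  classical
  intro hreg hprime hmem k _ _ _ P hP hP1 hP3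
  obtain ⟨hr1, hr2, hr3⟩ := hreg hmem k
  rcases hprime hmem k P hP1 hP3 with h | ⟨f, hf, h, hin, hle⟩
  · refine ⟨[X 1 ^ 2, X 2 ^ 2], ?_, hr1, [r k 1, r k 3], ?_, hr2, ?_, ?_⟩
    · intro z hz
      simp only [List.mem_cons, List.not_mem_nil, or_false] at hz
      rcases hz with rfl | rfl
      · exact isEv_X1 k
      · exact isEv_X2 k
    · simp only [List.map_cons, List.map_nil]
      rw [← E1, ← E3]
      rfl
    · intro z hz
      simp only [List.mem_cons, List.not_mem_nil, or_false] at hz
      rcases hz with rfl | rfl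
      · exact hP1
      · exact hP3
    · refine dim_le P {r k 1, r k 3} _ (Finset.card_le_two) ?_ ?_
      · intro z hz
        simp only [Finset.mem_insert, Finset.mem_singleton] at hz
        rcases hz with rfl | rfl
        · exact hP1
        · exact hP3
      · simpa using h
  · obtain ⟨hev, hD, h', hR⟩ := hr3 f hf
    refine ⟨[X 1 ^ 2, X 2 ^ 2, polyX0 f], ?_, hD, [r k 1, r k 3, ⟨E k (polyX0 f), h'⟩], ?_, hR,
      ?_, ?_⟩
    · intro z hz
      simp only [List.mem_cons, List.not_mem_nil, or_false] at hz
      rcases hz with rfl | rfl | rfl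
      · exact isEv_X1 k
      · exact isEv_X2 k
      · exact hev
    · simp only [List.map_cons, List.map_nil]
      rw [← E1, ← E3]
      rfl
    · intro z hz
      simp only [List.mem_cons, List.not_mem_nil, or_false] at hz
      rcases hz with rfl | rfl | rfl
      · exact hP1
      · exact hP3
      · exact hin
    · refine dim_le P {r k 1, r k 3, ⟨E k (polyX0 f), h'⟩} _ (Finset.card_le_three) ?_ ?_
      · intro z hz
        simp only [Finset.mem_insert, Finset.mem_singleton] at hz
        rcases hz with rfl | rfl | rfl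
        · exact hP1
        · exact hP3
        · exact hin
      · simpa using hle

end H503R3.FR
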